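import Pool.Agent.T2h85.HW.Main

/-! Base change of a rational elliptic curve and its Artin twists. -/

set_option autoImplicit false

namespace Pool.Agent.T2h85.HW

open Complex Filter Topology ComplexConjugate NumberField IsDedekindDomain Asymptotics
  Pool.Agent.W401.Cheb Pool.Agent.W540.BE Pool.Agent.W353.L1 Pool.Agent.W353.NF Polynomial
open Pool.Agent.W353.TP (HX sysH LL LL_tendsto E_H EH_eq bdd_isLittleO lam0_sub)
open Pool.Agent.H341R2 (lam lam_tendsto sysK)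
open Pool.Agent.W353.EF (LFun)
open Pool.Agent.W353.AT (IsFrobeniusElement IsArtin exists_common)
open Pool.Agent.Y722.EP (IsModular)
open Pool.Agent.X288.L2 (Sec PP QQ PQ_ne EC_c4 EC_c6 abs_TT_le chi_one' EC)
open Pool.Agent.W353.AB (syE)
open Pool.Agent.TH322.BC (size_chi chi abs_chi_le)
open Pool.Agent.TH322.BC.Edge (MinimalModels LimsupLE size_base)

section
variable {K : Type} [Field K] [NumberField K]

/-- two sizes with the same mean value -/
theorem SzH.uniq {T : HX K → ℝ} {Ψ : HeightOneSpectrum (𝓞 K) → ℝ} {X Y : ℝ → ℝ}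
    (hX : SzH T Ψ X) (hY : SzH T Ψ Y) : Tendsto (fun ε => X ε - Y ε) (𝓝[>] 0) (𝓝 0) := by
  have h := hX.sub hY
  have h1 : (fun ε => (X ε - Y ε) * LL ε) =o[𝓝[>] 0] LL := by
    refine h.congr_left fun ε => ?_
    ring
  have h2 : (fun ε => (X ε - Y ε)) =o[𝓝[>] 0] fun _ : ℝ => (1 : ℝ) := by
    have h3 : (fun ε : ℝ => (LL ε)⁻¹) =O[𝓝[>] 0] fun ε => (LL ε)⁻¹ := isBigO_refl _ _
    have h4 := h1.mul_isBigO h3
    refine h4.congr' ?_ ?_
    · filter_upwards [LL_tendsto.eventually_gt_atTop 0] with ε hε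
      field_simp
    · filter_upwards [LL_tendsto.eventually_gt_atTop 0] with ε hε
      field_simp
  exact (isLittleO_one_iff ℝ).1 h2

end

section
variable {K : Type} [Field K] [NumberField K] {a b : ℤ}

theorem P_eqK (a : ℤ) (b : ℤ) :
    ((PP K a : 𝓞 K) : K) = (((1 : 𝓞 K)) : K) ^ 4 * (EC K a b).c₄ := by
  have h1 : ((PP K a : 𝓞 K) : K) = ((-48 * a : ℤ) : K) := by
    unfold PP
    exact map_intCast (algebraMap (𝓞 K) K) _
  have h2 : ((1 : 𝓞 K) : K) = 1 := map_one (algebraMap (𝓞 K) K)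
  rw [h1, EC_c4, h2, one_pow, one_mul]

theorem Q_eqK (a : ℤ) (b : ℤ) :
    ((QQ K b : 𝓞 K) : K) = (((1 : 𝓞 K)) : K) ^ 6 * (EC K a b).c₆ := by
  have h1 : ((QQ K b : 𝓞 K) : K) = ((-864 * b : ℤ) : K) := by
    unfold QQ
    exact map_intCast (algebraMap (𝓞 K) K) _
  have h2 : ((1 : 𝓞 K) : K) = 1 := map_one (algebraMap (𝓞 K) K)
  rw [h1, EC_c6, h2, one_pow, one_mul]

variable (hab : 4 * a ^ 3 + 27 * b ^ 2 ≠ 0) (hmod : IsModular a b)

include hab hmod in
/-- the size of `L(E/F, s)` and of the twists -/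
theorem base_lim {F : Type} [Field F] [NumberField F] [Algebra K F]
    {V : HeightOneSpectrum (𝓞 F) → WeierstrassCurve (𝓞 F)}
    (hV : MinimalModels ((EC K a b).map (algebraMap K F)) V)
    {κ : Type} [Fintype κ] {n : κ → ℕ}
    {ρ : ∀ k, Representation ℂ (GK K) (Fin (n k) → ℂ)} {c : κ → ℤ} {τ : ℝ}
    (hA : ∀ k, IsArtin (ρ k))
    (hc : ∀ g : GK K, ∑ k, (c k : ℂ) * (ρ k).character g =
        (Nat.card {i : F →ₐ[K] AlgebraicClosure K // ∀ x, g (i x) = i x} : ℂ))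
    {m : κ → ℤ} (hm : ∀ k, TwistOrder a b (ρ k) τ (m k)) :
    (∀ᶠ ε : ℝ in 𝓝[>] 0,
      Pool.Agent.TH322.BC.Edge.LSeries V (3 / 2 + τ * Complex.I + ε) ≠ 0) ∧
    Tendsto (Pool.Agent.TH322.BC.Edge.size V τ) (𝓝[>] 0)
      (𝓝 (-((∑ k, c k * m k : ℤ) : ℝ))) := by
  classical
  obtain ⟨U, hUn, hU, hρ⟩ := exists_common ρ hA
  have hfin : Finite (GK K ⧸ U) := Subgroup.quotient_finite_of_isOpen U hU
  choose σ hσ using exists_isFrob (F := K)
  choose B hB hm' using hm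
  have s1 := size_base one_ne_zero (P_eqK a b) (Q_eqK a b) (PQ_ne hab) hV τ
  refine ⟨s1.1, ?_⟩
  have z1 : SzH (TT (syE (PP K a) (QQ K b)))
      (fun v => (chi K (((1 : 𝓞 F) : F)) (σ v) : ℝ) * cz τ v)
      (Pool.Agent.TH322.BC.Edge.size V τ) :=
    size_chi _ (syE_real _ _) one_ne_zero
      (Pool.Agent.TH322.BC.Edge.syE_D _ _ _) σ hσ s1.2
  have z2 := SzH.sum Finset.univ (T := TT (syE (PP K a) (QQ K b)))
    (Ψ := fun k => RR (ρ k) τ σ) (X := fun k => size τ (B k)) (B := fun k => (n k : ℝ))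
    (fun k _ => (tw_size hab hmod U (ρ k) (hρ k) τ (B k) (hB k) σ hσ).2) (abs_TT_le a b)
    (fun k _ v => abs_RR_le U (ρ k) (hρ k) τ σ v) fun k => (c k : ℝ)
  have hfix : ∀ g : GK K, (fixn K F g : ℂ) = ∑ k, (c k : ℂ) * (ρ k).character g := by
    intro g
    rw [hc g]
    unfold fixn
    congr 1
    refine Nat.card_congr (Equiv.subtypeEquivRight fun i => ?_)
    constructor
    · intro h x
      exact congrArg (fun j : F →ₐ[K] AlgebraicClosure K => j x) h
    · intro h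
      exact AlgHom.ext h
  have z2' : SzH (TT (syE (PP K a) (QQ K b)))
      (fun v => (chi K (((1 : 𝓞 F) : F)) (σ v) : ℝ) * cz τ v)
      (fun ε => ∑ k, (c k : ℝ) * size τ (B k) ε) := by
    refine z2.congr (fun v => ?_) fun _ => rfl
    rw [chi_one']
    have e1 : ∑ k, (c k : ℝ) * RR (ρ k) τ σ v =
        ((∑ k, (c k : ℂ) * (ρ k).character (σ v)⁻¹) * zz τ v).re := by
      rw [Finset.sum_mul, Complex.re_sum]
      refine Finset.sum_congr rfl fun k _ => ?_
      unfold RR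
      rw [← Complex.re_ofReal_mul]
      congr 1
      push_cast
      ring
    rw [e1, ← hfix, fixn_inv]
    have e2 : ((fixn K F (σ v) : ℕ) : ℂ) = (((fixn K F (σ v) : ℕ) : ℝ) : ℂ) := by push_cast; rfl
    rw [e2, Complex.re_ofReal_mul]
    push_cast
    rfl
  have z3 := SzH.uniq z1 z2'
  have z4 : Tendsto (fun ε => ∑ k, (c k : ℝ) * size τ (B k) ε) (𝓝[>] 0)
      (𝓝 (∑ k, (c k : ℝ) * -(m k : ℝ))) :=
    tendsto_finsetSum _ fun k _ => (tw_lim hab hmod (hA k) (hB k) (hm' k)).const_mul _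
  have z5 := z3.add z4
  rw [zero_add] at z5
  have e3 : ∑ k, (c k : ℝ) * -(m k : ℝ) = -((∑ k, c k * m k : ℤ) : ℝ) := by
    push_cast
    rw [← Finset.sum_neg_distrib]
    exact Finset.sum_congr rfl fun k _ => by ring
  rw [e3] at z5
  refine z5.congr fun ε => ?_
  ring

/-- **Base change.** -/
theorem baseChange (hab : 4 * a ^ 3 + 27 * b ^ 2 ≠ 0) (hmod : IsModular a b) :
    BaseChange K a b := by
  classical
  intro F _ _ _ V hV κ _ n ρ c τ hA hirr hne hc m hm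
  obtain ⟨s1, s2⟩ := base_lim hab hmod hV hA hc hm
  refine ⟨∑ k, c k * m k, s2, fun M' hM' => ?_, fun d hd => ?_, ?_⟩
  · have h1 := Pool.Agent.TH322.BC.Edge.orders s1 hM'
    have h2 := tendsto_nhds_unique h1 s2
    have h3 : (M' : ℝ) = ((∑ k, c k * m k : ℤ) : ℝ) := by linarith
    exact_mod_cast h3
  · have h1 := (bessel_thm hab hmod κ n ρ (fun _ => τ) hA hirr (fun k l hkl _ => hne k l hkl)
      d hd).2 m hm
    have h2 : (∑ k, c k * m k) ^ 2 ≤ (∑ k, m k ^ 2) * (∑ k, c k ^ 2) := by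
      rw [mul_comm (∑ k, m k ^ 2)]
      exact Finset.sum_mul_sq_le_sq_mul_sq _ _ _
    have h3 : (((∑ k, c k * m k) ^ 2 : ℤ) : ℝ) ≤
        ((∑ k, m k ^ 2 : ℤ) : ℝ) * ((∑ k, c k ^ 2 : ℤ) : ℝ) := by exact_mod_cast h2
    have h4 : (0 : ℝ) ≤ ((∑ k, c k ^ 2 : ℤ) : ℝ) := by
      have : 0 ≤ ∑ k, c k ^ 2 := Finset.sum_nonneg fun k _ => sq_nonneg _
      exact_mod_cast this
    calc ((∑ k, c k * m k : ℤ) : ℝ) ^ 2 = (((∑ k, c k * m k) ^ 2 : ℤ) : ℝ) := by push_cast; ring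
      _ ≤ _ := h3
      _ ≤ _ := mul_le_mul_of_nonneg_right h1 h4
  · rintro ⟨d, hd, hβ⟩ h
    obtain ⟨k, -, hk⟩ := Finset.exists_ne_zero_of_sum_ne_zero h
    have hmk : m k ≠ 0 := fun h0 => hk (by rw [h0, mul_zero])
    have hz := off_zero hab hmod (hA k) (hirr k) (hm k) hd hβ hmk
    have hother : ∀ l, l ≠ k → m l = 0 := by
      intro l hl
      by_contra h0
      have h1 := lt_two (two_pairs hab hmod (hA k) (hA l) (hirr k) (hirr l) (hm k) (hm l)
        (fun _ => hne k l hl.symm) hd) hβ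
      have h2 : 0 < m k ^ 2 := by positivity
      have h3 : 0 < m l ^ 2 := by positivity
      omega
    refine ⟨k, ?_, hz.1, hz.2, fun h1 => ?_⟩
    · rw [Finset.sum_eq_single k (fun l _ hl => by rw [hother l hl, mul_zero])
        (fun h => absurd (Finset.mem_univ k) h), abs_mul,
        abs_one_of (lt_two (one_pair hab hmod (hA k) (hirr k) (hm k) hd) hβ) hmk, mul_one]
    · by_contra h3
      exact hmk (dim_order h1 hab hmod (ρ k) τ (hA k) (hirr k) (by omega) (m k) (hm k))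

end

end Pool.Agent.T2h85.HW
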