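import Pool.Agent.X288.L2.Edge
import Pool.Agent.W353.AT.Bessel

/-! Bessel's inequality from the second moment of the coefficients. -/

set_option autoImplicit false

namespace Pool.Agent.T2h85.HW

open Complex Filter Topology ComplexConjugate NumberField IsDedekindDomain Asymptotics
  Pool.Agent.W401.Cheb Pool.Agent.W540.BE Pool.Agent.W353.L1 Pool.Agent.W353.NF
open Pool.Agent.W353.TP (HX sysH LL LL_tendsto E_H EH_eq bdd_isLittleO lam0_sub)
open Pool.Agent.H341R2 (lam lam_tendsto sysK)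
open Pool.Agent.X288.L2 (Sec size_le_G sq_lim amgm)

section
variable {K : Type} [Field K] [NumberField K]

/-- upper bounds for the mean value of the square -/
def SqLE (Ψ : HeightOneSpectrum (𝓞 K) → ℝ) (A : ℝ) : Prop :=
  ∀ η : ℝ, 0 < η → ∀ᶠ ε : ℝ in 𝓝[>] 0, (EP (nm K) ε fun v => Ψ v ^ 2) / lam ε ≤ A + η

theorem SqLE.of_has {Ψ : HeightOneSpectrum (𝓞 K) → ℝ} {A : ℝ}
    (h : Has (fun v => Ψ v ^ 2) A) : SqLE Ψ A := by
  intro η hη
  exact (h.2.eventually_lt_const (lt_add_of_pos_right A hη)).mono fun ε hε => hε.le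

/-- **The square of a size.** -/
theorem comb_sq {T : HX K → ℝ} {β N A B : ℝ} {Ψ : HeightOneSpectrum (𝓞 K) → ℝ} {X : ℝ → ℝ}
    (hT : ∀ x, |T x| ≤ N) (hsec : Sec T β) (hβ : 0 ≤ β) (h : SzH T Ψ X) (hA0 : 0 ≤ A)
    (hA : SqLE Ψ A) (hB : ∀ v, |Ψ v| ≤ B) {η : ℝ} (hη : 0 < η) :
    ∀ᶠ ε : ℝ in 𝓝[>] 0, X ε ^ 2 ≤ β * A + η := by
  refine sq_lim hβ hA0 (fun γ hγ η' hη' => ?_) hη
  refine size_le_G (G := fun y => y ^ 2 / (2 * γ)) hT hB h hsec hγ.le
    (B' := B ^ 2 / (2 * γ)) (fun v => ?_) (fun t y _ => amgm hγ t y) (fun η'' hη'' => ?_) hη'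
  · rw [abs_div, abs_of_pos (by positivity : 0 < 2 * γ), abs_pow]
    exact div_le_div_of_nonneg_right (pow_le_pow_left₀ (abs_nonneg _) (hB v) 2) (by positivity)
  · refine (hA (2 * γ * η'') (by positivity)).mono fun ε hε => ?_
    have e1 : (EP (nm K) ε fun v => Ψ v ^ 2 / (2 * γ)) / lam ε =
        1 / (2 * γ) * ((EP (nm K) ε fun v => Ψ v ^ 2) / lam ε) := by
      rw [← mul_div_assoc, ← EP_const_mul]
      congr 2
      funext v
      ring
    have e2 : A / (2 * γ) + η'' = 1 / (2 * γ) * (A + 2 * γ * η'') := by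
      field_simp
    rw [e1, e2]
    exact mul_le_mul_of_nonneg_left hε (by positivity)

/-- **Bessel's inequality.** -/
theorem bessel_sec {κ : Type*} (S : Finset κ) {T : HX K → ℝ} {β N : ℝ}
    {R : κ → HeightOneSpectrum (𝓞 K) → ℝ} {x : κ → ℝ → ℝ} {B : κ → ℝ}
    (hT : ∀ x, |T x| ≤ N) (hsec : Sec T β) (hβ : 0 ≤ β)
    (hR : ∀ k ∈ S, ∀ v, |R k v| ≤ B k) (hx : ∀ k ∈ S, SzH T (R k) (x k))
    (hm : ∀ c : κ → ℝ, SqLE (fun v => ∑ k ∈ S, c k * R k v) (∑ k ∈ S, c k ^ 2))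
    {η : ℝ} (hη : 0 < η) : ∀ᶠ ε : ℝ in 𝓝[>] 0, ∑ k ∈ S, (x k ε) ^ 2 ≤ β + η := by
  classical
  have hcomb : ∀ (c : κ → ℝ) (η : ℝ), 0 < η → ∀ᶠ ε : ℝ in 𝓝[>] 0,
      (∑ k ∈ S, c k * x k ε) ^ 2 ≤ β * (∑ k ∈ S, c k ^ 2) + η := by
    intro c η hη
    exact comb_sq hT hsec hβ (SzH.sum S hx hT hR c) (Finset.sum_nonneg fun k _ => sq_nonneg _)
      (hm c) (B := ∑ k ∈ S, |c k| * B k) (fun v =>
        (Finset.abs_sum_le_sum_abs _ _).trans (Finset.sum_le_sum fun k hk => by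
          rw [abs_mul]
          exact mul_le_mul_of_nonneg_left (hR k hk v) (abs_nonneg _))) hη
  by_contra hcon
  rw [not_eventually] at hcon
  have hbd : ∀ k ∈ S, ∀ᶠ ε : ℝ in 𝓝[>] 0, |x k ε| ≤ Real.sqrt (β + 1) := by
    intro k hk
    have h1 := hcomb (fun l => if l = k then 1 else 0) 1 one_pos
    refine h1.mono fun ε hε => ?_
    have h3 : ∑ l ∈ S, (if l = k then (1 : ℝ) else 0) ^ 2 = 1 := by
      rw [Finset.sum_eq_single k]
      · simp
      · intro l _ hl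
        simp [hl]
      · intro h
        exact absurd hk h
    have h4 : ∑ l ∈ S, (if l = k then (1 : ℝ) else 0) * x l ε = x k ε := by
      rw [Finset.sum_eq_single k]
      · simp
      · intro l _ hl
        simp [hl]
      · intro h
        exact absurd hk h
    rw [h3, h4, mul_one] at hε
    exact Real.abs_le_sqrt hε
  obtain ⟨𝒰, h𝒰, hU2⟩ : ∃ 𝒰 : Ultrafilter ℝ, (𝒰 : Filter ℝ) ≤ 𝓝[>] 0 ∧
      ∀ᶠ ε in (𝒰 : Filter ℝ), ¬ ∑ k ∈ S, (x k ε) ^ 2 ≤ β + η := by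
    have hne' : (𝓝[>] (0 : ℝ) ⊓ 𝓟 {ε | ¬ ∑ k ∈ S, (x k ε) ^ 2 ≤ β + η}).NeBot :=
      frequently_iff_neBot.1 hcon
    refine ⟨Ultrafilter.of (𝓝[>] (0 : ℝ) ⊓ 𝓟 {ε | ¬ ∑ k ∈ S, (x k ε) ^ 2 ≤ β + η}),
      (Ultrafilter.of_le _).trans inf_le_left, ?_⟩
    have h1 : ((Ultrafilter.of (𝓝[>] (0 : ℝ) ⊓
        𝓟 {ε | ¬ ∑ k ∈ S, (x k ε) ^ 2 ≤ β + η}) : Ultrafilter ℝ) : Filter ℝ) ≤
        𝓟 {ε | ¬ ∑ k ∈ S, (x k ε) ^ 2 ≤ β + η} := (Ultrafilter.of_le _).trans inf_le_right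
    exact h1 (mem_principal_self _)
  have hex : ∀ k : κ, ∃ y : ℝ, k ∈ S → Tendsto (x k) 𝒰 (𝓝 y) := by
    intro k
    by_cases hk : k ∈ S
    · have hcomp : IsCompact (Set.Icc (-(Real.sqrt (β + 1))) (Real.sqrt (β + 1))) :=
        isCompact_Icc
      have hmem : (𝒰.map (x k) : Filter ℝ) ≤
          𝓟 (Set.Icc (-(Real.sqrt (β + 1))) (Real.sqrt (β + 1))) := by
        rw [le_principal_iff]
        have := (hbd k hk).filter_mono h𝒰
        exact this.mono fun ε hε => abs_le.1 hε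
      obtain ⟨y, -, hy⟩ := hcomp.ultrafilter_le_nhds (𝒰.map (x k)) hmem
      exact ⟨y, fun _ => hy⟩
    · exact ⟨0, fun h => absurd h hk⟩
  choose y hy using hex
  have hlim : Tendsto (fun ε => ∑ k ∈ S, (x k ε) ^ 2) 𝒰 (𝓝 (∑ k ∈ S, (y k) ^ 2)) :=
    tendsto_finsetSum S fun k hk => (hy k hk).pow 2
  have hge : β + η ≤ ∑ k ∈ S, (y k) ^ 2 :=
    ge_of_tendsto hlim (hU2.mono fun ε hε => (not_le.1 hε).le)
  have hle : (∑ k ∈ S, (y k) ^ 2) ^ 2 ≤ β * ∑ k ∈ S, (y k) ^ 2 := by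
    refine le_of_forall_pos_le_add fun η' hη' => ?_
    have h2 : Tendsto (fun ε => (∑ k ∈ S, y k * x k ε) ^ 2) 𝒰 (𝓝 ((∑ k ∈ S, y k * y k) ^ 2)) :=
      (tendsto_finsetSum S fun k hk => (hy k hk).const_mul (y k)).pow 2
    have h3 := le_of_tendsto h2 ((hcomb y η' hη').filter_mono h𝒰)
    refine le_trans (le_of_eq ?_) h3
    congr 1
    exact Finset.sum_congr rfl fun k _ => by ring
  set Q := ∑ k ∈ S, (y k) ^ 2 with hQ
  have hQ0 : 0 < Q := by linarith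
  nlinarith

/-- **Bessel's inequality for the limits.** -/
theorem bessel_sec_lim {κ : Type*} (S : Finset κ) {T : HX K → ℝ} {β N : ℝ}
    {R : κ → HeightOneSpectrum (𝓞 K) → ℝ} {x : κ → ℝ → ℝ} {B : κ → ℝ}
    (hT : ∀ x, |T x| ≤ N) (hsec : Sec T β) (hβ : 0 ≤ β)
    (hR : ∀ k ∈ S, ∀ v, |R k v| ≤ B k) (hx : ∀ k ∈ S, SzH T (R k) (x k))
    (hm : ∀ c : κ → ℝ, SqLE (fun v => ∑ k ∈ S, c k * R k v) (∑ k ∈ S, c k ^ 2))
    {y : κ → ℝ} (hy : ∀ k ∈ S, Tendsto (x k) (𝓝[>] 0) (𝓝 (y k))) :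
    ∑ k ∈ S, (y k) ^ 2 ≤ β := by
  refine le_of_forall_pos_le_add fun η hη => ?_
  exact le_of_tendsto (tendsto_finsetSum S fun k hk => (hy k hk).pow 2)
    (bessel_sec S hT hsec hβ hR hx hm hη)

end

section
variable {F : Type} [Field F] [NumberField F] (U : Subgroup (GK F)) [U.Normal]
  (hU : IsOpen (U : Set (GK F))) [Finite (GK F ⧸ U)]
  {κ : Type*} (K : Finset κ) {n : κ → ℕ}
  (ρ : ∀ k, Representation ℂ (GK F) (Fin (n k) → ℂ)) (hρ : ∀ k, ∀ u ∈ U, ρ k u = 1)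
  (τ : κ → ℝ) (σ : HeightOneSpectrum (𝓞 F) → GK F) (hσ : ∀ v, IsFrob v (σ v))

include hU hρ hσ in
/-- **The mean value of the square of a combination.** -/
theorem sq_comb (hirr : ∀ k ∈ K, (ρ k).IsIrreducible)
    (hne : ∀ k ∈ K, ∀ l ∈ K, k ≠ l → τ k = τ l → IsEmpty ((ρ k).Equiv (ρ l))) (c : κ → ℝ) :
    SqLE (fun v => ∑ k ∈ K, c k * RR (ρ k) (τ k) σ v) (∑ k ∈ K, c k ^ 2) := by
  classical
  set S : ℝ := ∑ k ∈ K, c k ^ 2 with hS
  set W : HeightOneSpectrum (𝓞 F) → ℝ := fun v => ∑ k ∈ K, c k * RR (ρ k) (τ k) σ v with hW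
  set g : HeightOneSpectrum (𝓞 F) → ℂ := fun v => ∑ k ∈ K, (c k : ℂ) *
    ((chF U ρ hρ k).f (QuotientGroup.mk (σ v)) * zz (τ k) v) with hg
  have hWg : ∀ v, W v = (g v).re := by
    intro v
    rw [hW, hg]
    simp only
    rw [Complex.re_sum]
    refine Finset.sum_congr rfl fun k _ => ?_
    rw [Complex.re_ofReal_mul]
    rfl
  have hgg : ∀ v, ‖g v‖ ^ 2 = ∑ k ∈ K, ∑ l ∈ K, c k * c l *
      ((chF U ρ hρ k).mul (chF U ρ hρ l).star).R (τ k - τ l) σ v := by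
    intro v
    have h1 : (‖g v‖ ^ 2 : ℝ) = (g v * conj (g v)).re := by
      rw [Complex.mul_conj, Complex.normSq_eq_norm_sq, Complex.ofReal_re]
    rw [h1, hg]
    simp only
    rw [map_sum, Finset.sum_mul_sum, Complex.re_sum]
    refine Finset.sum_congr rfl fun k _ => ?_
    rw [Complex.re_sum]
    refine Finset.sum_congr rfl fun l _ => ?_
    have h2 : (c k : ℂ) * ((chF U ρ hρ k).f (QuotientGroup.mk (σ v)) * zz (τ k) v) *
        conj ((c l : ℂ) * ((chF U ρ hρ l).f (QuotientGroup.mk (σ v)) * zz (τ l) v)) =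
        ((c k * c l : ℝ) : ℂ) * (((chF U ρ hρ k).f (QuotientGroup.mk (σ v)) *
          conj ((chF U ρ hρ l).f (QuotientGroup.mk (σ v)))) * zz (τ k - τ l) v) := by
      rw [map_mul, map_mul, Complex.conj_ofReal, conj_zz, sub_eq_add_neg, zz_add]
      push_cast
      ring
    rw [h2, Complex.re_ofReal_mul]
    rfl
  have hmean : Has (fun v => ‖g v‖ ^ 2) S := by
    have h1 : ∀ k ∈ K, ∀ l ∈ K, Has (fun v => c k * c l *
        ((chF U ρ hρ k).mul (chF U ρ hρ l).star).R (τ k - τ l) σ v)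
        (if k = l then c k ^ 2 else 0) := by
      intro k hk l hl
      have h2 := ((chF U ρ hρ k).mul (chF U ρ hρ l).star).has hU σ hσ (τ k - τ l)
      have h3 := h2.const_mul (c k * c l)
      refine h3.congr (fun v => rfl) ?_
      by_cases hkl : k = l
      · subst hkl
        rw [sub_self, if_pos rfl, if_pos rfl]
        have h4 := avC_ortho U ρ hρ (hirr k hk) (hirr k hk)
        rw [if_pos ⟨Representation.Equiv.refl _⟩] at h4
        have h5 : avC U ((chF U ρ hρ k).mul (chF U ρ hρ k).star).f = 1 := h4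
        rw [h5, Complex.one_re]
        ring
      · rw [if_neg hkl]
        by_cases ht : τ k - τ l = 0
        · rw [if_pos ht]
          have h4 := avC_ortho U ρ hρ (hirr k hk) (hirr l hl)
          rw [if_neg (by
            rw [not_nonempty_iff]
            exact hne k hk l hl hkl (sub_eq_zero.1 ht))] at h4
          have h5 : avC U ((chF U ρ hρ k).mul (chF U ρ hρ l).star).f = 0 := h4
          rw [h5, Complex.zero_re, mul_zero]
        · rw [if_neg ht, mul_zero]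
    have h6 := Pool.Agent.W353.AT.Has.sum K fun k hk =>
      Pool.Agent.W353.AT.Has.sum K fun l hl => h1 k hk l hl
    refine h6.congr (fun v => (hgg v).symm) ?_
    rw [hS]
    refine Finset.sum_congr rfl fun k hk => ?_
    rw [Finset.sum_ite_eq, if_pos hk]
  obtain ⟨⟨Bg, hBg⟩, hlim⟩ := hmean
  intro η hη
  filter_upwards [hlim.eventually_lt_const (lt_add_of_pos_right S hη),
    lam_tendsto.eventually_gt_atTop 0, self_mem_nhdsWithin] with ε h1 h2 h3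
  refine le_trans ?_ h1.le
  refine div_le_div_of_nonneg_right ?_ h2.le
  have hε : (0 : ℝ) < ε := h3
  have hpt : ∀ v, W v ^ 2 ≤ ‖g v‖ ^ 2 := by
    intro v
    rw [hWg, ← sq_abs]
    exact pow_le_pow_left₀ (abs_nonneg _) (Complex.abs_re_le_norm _) 2
  refine EP_mono (B := Bg) (B' := Bg) (fun v => ?_) hBg (fun v => hpt v) hε
  rw [abs_of_nonneg (sq_nonneg _)]
  exact (hpt v).trans ((le_abs_self _).trans (hBg v))

end

end Pool.Agent.T2h85.HW
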