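import Pool.Agent.T2h85.HW.Const

/-! The complex conjugate of a representation. -/

set_option autoImplicit false
open Classical

namespace Pool.Agent.T2h85.HW

open Complex Filter Topology ComplexConjugate

section
variable {G : Type*} [Group G] {n : ℕ} (ρ : Representation ℂ G (Fin n → ℂ))

/-- the conjugate representation -/
noncomputable def crep : Representation ℂ G (Fin n → ℂ) where
  toFun g :=
    { toFun := fun x => star (ρ g (star x))
      map_add' := fun x y => by rw [star_add, map_add, star_add]
      map_smul' := fun c x => by
        rw [star_smul, map_smul, star_smul, star_star]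
        rfl }
  map_one' := by
    ext x
    simp
  map_mul' g h := by
    ext x
    simp

theorem crep_apply (g : G) (x : Fin n → ℂ) : crep ρ g x = star (ρ g (star x)) := rfl

theorem crep_trivial {g : G} (h : ρ g = 1) : crep ρ g = 1 := by
  refine LinearMap.ext fun x => ?_
  rw [crep_apply, h]
  change star (star x) = x
  rw [star_star]

theorem crep_char (g : G) : (crep ρ).character g = conj (ρ.character g) := by
  unfold Representation.character
  rw [LinearMap.trace_eq_matrix_trace ℂ (Pi.basisFun ℂ (Fin n)),
    LinearMap.trace_eq_matrix_trace ℂ (Pi.basisFun ℂ (Fin n)), Matrix.trace, Matrix.trace, map_sum]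
  refine Finset.sum_congr rfl fun i _ => ?_
  have h1 : (star (Pi.single i (1 : ℂ)) : Fin n → ℂ) = Pi.single i 1 := by
    funext j
    by_cases h : j = i
    · subst h; simp
    · simp [Pi.single_eq_of_ne h]
  simp only [Matrix.diag_apply, LinearMap.toMatrix_apply, Pi.basisFun_apply, Pi.basisFun_repr,
    crep_apply, h1]
  rfl

/-- conjugate of a subrepresentation -/
noncomputable def csub (ρ σ : Representation ℂ G (Fin n → ℂ))
    (h : ∀ g x, σ g x = star (ρ g (star x))) (S : Subrepresentation ρ) : Subrepresentation σ where
  toSubmodule :=
    { carrier := {x | star x ∈ S.toSubmodule}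
      add_mem' := fun {x y} hx hy => by
        change star (x + y) ∈ S.toSubmodule
        rw [star_add]
        exact S.toSubmodule.add_mem hx hy
      zero_mem' := by
        change star (0 : Fin n → ℂ) ∈ S.toSubmodule
        rw [star_zero]
        exact S.toSubmodule.zero_mem
      smul_mem' := fun c x hx => by
        change star (c • x) ∈ S.toSubmodule
        rw [star_smul]
        exact S.toSubmodule.smul_mem _ hx }
  apply_mem_toSubmodule := fun g x hx => by
    change star (σ g x) ∈ S.toSubmodule
    rw [h, star_star]
    exact S.apply_mem_toSubmodule g hx

theorem crep_irr (hi : ρ.IsIrreducible) : (crep ρ).IsIrreducible := by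
  have hi' : IsSimpleOrder (Subrepresentation ρ) := hi
  have h2 : ∀ g x, ρ g x = star (crep ρ g (star x)) := by
    intro g x
    rw [crep_apply, star_star, star_star]
  let e : Subrepresentation (crep ρ) ≃o Subrepresentation ρ :=
    { toFun := csub (crep ρ) ρ h2
      invFun := csub ρ (crep ρ) (fun g x => rfl)
      left_inv := fun S => by
        have : ∀ x, x ∈ (csub ρ (crep ρ) (fun g x => rfl) (csub (crep ρ) ρ h2 S)).toSubmodule ↔
            x ∈ S.toSubmodule := fun x => by
          change star (star x) ∈ S.toSubmodule ↔ _
          rw [star_star]
        exact Subrepresentation.toSubmodule_injective (Submodule.ext this)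
      right_inv := fun S => by
        have : ∀ x, x ∈ (csub (crep ρ) ρ h2 (csub ρ (crep ρ) (fun g x => rfl) S)).toSubmodule ↔
            x ∈ S.toSubmodule := fun x => by
          change star (star x) ∈ S.toSubmodule ↔ _
          rw [star_star]
        exact Subrepresentation.toSubmodule_injective (Submodule.ext this)
      map_rel_iff' := by
        intro S T
        constructor
        · intro h x hx
          have h1 : star x ∈ (csub (crep ρ) ρ h2 S).toSubmodule := by
            change star (star x) ∈ S.toSubmodule
            rwa [star_star]
          have h3 := h h1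
          have h4 : star (star x) ∈ T.toSubmodule := h3
          rwa [star_star] at h4
        · intro h x hx
          exact h hx }
  exact (OrderIso.isSimpleOrder_iff e).2 hi'

theorem crep_not_equiv {g : G} (hg : (ρ.character g).im ≠ 0) :
    IsEmpty (ρ.Equiv (crep ρ)) := by
  refine ⟨fun e => hg ?_⟩
  have h1 : (crep ρ).character g = ρ.character g := congrFun (Representation.char_iso e).symm g
  rw [crep_char] at h1
  exact Complex.conj_eq_iff_im.1 h1

end

end Pool.Agent.T2h85.HW
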