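import Pool.Agent.T2h85.HW.Bes
import Pool.Agent.X288.L2.Curve
import Pool.Agent.X288.L2.Means

/-! The second moment over a number field: an interpolation between Hasse's bound and the theorem of
Rankin and Selberg. -/

set_option autoImplicit false

namespace Pool.Agent.T2h85.HW

open Complex Filter Topology ComplexConjugate NumberField IsDedekindDomain Asymptotics
  Pool.Agent.W401.Cheb Pool.Agent.W540.BE Pool.Agent.W353.L1 Pool.Agent.W353.NF
open Pool.Agent.W353.TP (HX sysH LL LL_tendsto E_H EH_eq bdd_isLittleO lam0_sub card_hom_le qh push)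
open Pool.Agent.H341R2 (lam lam_tendsto sysK)
open Pool.Agent.Y722.EP (IsModular finite_dvd)
open Pool.Agent.X288.L2 (Sec PP QQ TT_newform abs_TT_le Cls toCF_R mean_fix)
open Pool.Agent.W353.AB (syE)
open Pool.Agent.Y722.RS (tt tt_le self_le)

section
variable {K : Type} [Field K] [NumberField K]

theorem hom_Q_unique {R : Type*} [CommRing R] (f g : 𝓞 ℚ →+* R) : f = g := by
  have h : f.comp (Rat.ringOfIntegersEquiv.symm : ℤ →+* 𝓞 ℚ) =
      g.comp (Rat.ringOfIntegersEquiv.symm : ℤ →+* 𝓞 ℚ) := RingHom.ext_int _ _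
  ext x
  have h1 : f (Rat.ringOfIntegersEquiv.symm (Rat.ringOfIntegersEquiv x)) =
      g (Rat.ringOfIntegersEquiv.symm (Rat.ringOfIntegersEquiv x)) :=
    RingHom.congr_fun h (Rat.ringOfIntegersEquiv x)
  rwa [RingEquiv.symm_apply_apply] at h1

/-- the homomorphism to a prime field -/
noncomputable def homQ (p : Nat.Primes) : 𝓞 ℚ →+* ZMod (p : ℕ) :=
  (Int.castRingHom (ZMod (p : ℕ))).comp (Rat.ringOfIntegersEquiv : 𝓞 ℚ →+* ℤ)

/-- the point over `p` -/
noncomputable def xQ (p : Nat.Primes) : HX ℚ := ⟨p, homQ p⟩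

theorem sum_homQ (p : Nat.Primes) (φ : HX ℚ → ℝ) :
    ∑ u : 𝓞 ℚ →+* ZMod (p : ℕ), φ ⟨p, u⟩ = φ (xQ p) := by
  rw [Finset.sum_eq_single (homQ p)]
  · rfl
  · intro u _ hu
    exact absurd (hom_Q_unique u (homQ p)) hu
  · intro h
    exact absurd (Finset.mem_univ _) h

/-- class function of the number of fixed embeddings -/
theorem cls_fix : Cls (act ℚ K).ker (fun g => (fixn ℚ K g : ℝ)) where
  hU g u hu := by
    have : fixn ℚ K (g * u) = fixn ℚ K g := fixn_mul_ker ℚ K g u hu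
    rw [this]
  hc g x := by rw [fixn_conj]
  hi g := by rw [fixn_inv]

variable (K) in
/-- the mean value of `max (fix - c, 0)` -/
noncomputable def exc (c : ℝ) : ℝ :=
  avR (act ℚ K).ker fun q => max ((fixn ℚ K q.out : ℝ) - c) 0

theorem exc_has (σ : HeightOneSpectrum (𝓞 ℚ) → GK ℚ) (hσ : ∀ v, IsFrob v (σ v)) (c : ℝ) :
    Has (fun v => max ((fixn ℚ K (σ v) : ℝ) - c) 0) (exc K c) := by
  have hfin : Finite (GK ℚ ⧸ (act ℚ K).ker) :=
    Subgroup.quotient_finite_of_isOpen _ (ker_act_open ℚ K)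
  have hc := (cls_fix (K := K)).comp fun y => max (y - c) 0
  have h := (toCF (act ℚ K).ker (fun g => max ((fixn ℚ K g : ℝ) - c) 0) hc.hU hc.hc hc.hi).has
    (ker_act_open ℚ K) σ hσ 0
  refine h.congr (fun v => ?_) ?_
  · rw [toCF_R σ hc]
    unfold cz zz
    simp
  · rw [if_pos rfl]
    have e : (toCF (act ℚ K).ker (fun g => max ((fixn ℚ K g : ℝ) - c) 0) hc.hU hc.hc hc.hi).f = fun q =>
        ((max ((fixn ℚ K q.out : ℝ) - c) 0 : ℝ) : ℂ) := rfl
    rw [e, avC_ofReal, Complex.ofReal_re]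
    rfl

/-- **The second moment over `K`.** -/
theorem sec_exc {a b : ℤ} (hab : 4 * a ^ 3 + 27 * b ^ 2 ≠ 0) (h : IsModular a b) {c : ℝ}
    (hc : 0 ≤ c) {η : ℝ} (hη : 0 < η) :
    Sec (TT (syE (PP K a) (QQ K b))) (c + 4 * exc K c + η) := by
  classical
  obtain ⟨N, hN, f, hf⟩ := h
  obtain ⟨C, hC⟩ := self_le hf.1
  choose σ hσ using exists_isFrob (F := ℚ)
  obtain ⟨S₂, hS₂⟩ := push_fix ℚ K
  set D : ℝ := (Module.finrank ℚ K : ℝ) with hD
  have hD0 : 0 ≤ D := Nat.cast_nonneg _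
  set S : Finset Nat.Primes := (finite_dvd
    (mul_ne_zero (by norm_num : (6 : ℤ) ≠ 0) hab)).toFinset with hS
  set g : HeightOneSpectrum (𝓞 ℚ) → ℝ := fun v => max ((fixn ℚ K (σ v) : ℝ) - c) 0 with hg
  have hg0 : ∀ v, 0 ≤ g v := fun v => le_max_right _ _
  have hgD : ∀ v, g v ≤ D := by
    intro v
    refine max_le ?_ hD0
    have := fixn_le (K := ℚ) (F := K) (σ v)
    linarith
  set k : HeightOneSpectrum (𝓞 ℚ) → ℝ := fun v => 4 * g v + (if v ∈ S₂ then D * 4 else 0) with hk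
  have hk0 : ∀ v, 0 ≤ k v := by
    intro v
    have h1 := hg0 v
    rw [hk]
    simp only
    split_ifs <;> nlinarith
  have hkB : ∀ v, |k v| ≤ 8 * D := by
    intro v
    rw [abs_of_nonneg (hk0 v)]
    have h1 := hgD v
    rw [hk]
    simp only
    split_ifs <;> nlinarith
  have hhas : Has k (4 * exc K c) := by
    have h1 := (exc_has (K := K) σ hσ c).const_mul 4
    have h2 : Has (fun v : HeightOneSpectrum (𝓞 ℚ) => if v ∈ S₂ then D * 4 else 0) 0 := by
      have hb : ∀ v : HeightOneSpectrum (𝓞 ℚ), |(if v ∈ S₂ then D * 4 else 0)| ≤ D * 4 := by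
        intro v
        split_ifs
        · rw [abs_of_nonneg (by positivity)]
        · rw [abs_zero]; positivity
      refine ⟨⟨D * 4, hb⟩, ?_⟩
      have h3 : Tendsto (fun ε : ℝ => (S₂.card * (D * 4)) / lam ε) (𝓝[>] 0) (𝓝 0) :=
        lam_tendsto.const_div_atTop _
      refine squeeze_zero_norm' ?_ h3
      filter_upwards [lam_tendsto.eventually_gt_atTop 0, self_mem_nhdsWithin] with ε h4 h5
      rw [Real.norm_eq_abs, abs_div, abs_of_pos h4]
      exact div_le_div_of_nonneg_right (EP_finsupp normSys S₂ _ (fun v hv => if_neg hv) _ hb h5)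
        h4.le
    refine (h1.add h2).congr (fun v => rfl) (by ring)
  -- the sum over the primes of `ℚ`
  have hkey : ∀ᶠ ε : ℝ in 𝓝[>] 0, (sysH ℚ).E ε (fun x : HX ℚ => k (vx x)) ≤
      (4 * exc K c + η) * LL ε := by
    have h1 : Tendsto (fun ε : ℝ => (sysH ℚ).E ε (fun x : HX ℚ => k (vx x)) / LL ε) (𝓝[>] 0)
        (𝓝 (4 * exc K c)) := by
      have h2 := hhas.2
      have h3 : (fun ε : ℝ => EP (nm ℚ) ε k - (sysH ℚ).E ε (fun x : HX ℚ => k (vx x)))
          =o[𝓝[>] 0] LL :=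
        bdd_isLittleO ⟨_, eventually_nhdsWithin_of_forall fun ε hε => E_H hkB hε⟩
      have h4 : Tendsto (fun ε : ℝ => lam ε / LL ε) (𝓝[>] 0) (𝓝 1) := by
        have h5 := lam0_sub.tendsto_div_nhds_zero.add_const 1
        rw [zero_add] at h5
        refine h5.congr' ?_
        filter_upwards [LL_tendsto.eventually_gt_atTop 0] with ε hε
        field_simp
        ring
      have h6 := (h2.mul h4).sub h3.tendsto_div_nhds_zero
      rw [mul_one, sub_zero] at h6
      refine h6.congr' ?_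
      filter_upwards [LL_tendsto.eventually_gt_atTop 0, lam_tendsto.eventually_gt_atTop 0]
        with ε h7 h8
      field_simp
      ring
    filter_upwards [h1.eventually_lt_const (lt_add_of_pos_right (4 * exc K c) hη),
      LL_tendsto.eventually_gt_atTop 0] with ε h2 h3
    rw [div_lt_iff₀ h3] at h2
    exact h2.le
  refine ⟨c * C + S.card * (D * 4), ?_⟩
  filter_upwards [hC, hkey, self_mem_nhdsWithin] with ε h1 hk' h2
  have hε : (0 : ℝ) < ε := h2
  have hTb : ∀ x : HX K, |TT (syE (PP K a) (QQ K b)) x ^ 2| ≤ 4 := by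
    intro x
    rw [abs_pow]
    calc |TT (syE (PP K a) (QQ K b)) x| ^ 2 ≤ 2 ^ 2 :=
          pow_le_pow_left₀ (abs_nonneg _) (abs_TT_le a b x) 2
      _ = 4 := by norm_num
  refine (le_of_eq (EH_eq hε hTb)).trans ?_
  have htb : ∀ p : Nat.Primes, |tt f p * tt f p| ≤ 4 := by
    intro p
    rw [abs_mul]
    calc |tt f p| * |tt f p| ≤ 2 * 2 := mul_le_mul (tt_le hf.1 p.2)
          (tt_le hf.1 p.2) (abs_nonneg _) (by norm_num)
      _ = 4 := by norm_num
  have hs2 := Pool.Agent.Y722.EP.summable_E (φ := fun p : Nat.Primes => tt f p * tt f p) htb hε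
  have hub : ∀ p : Nat.Primes, ∑ u : 𝓞 K →+* ZMod (p : ℕ),
      TT (syE (PP K a) (QQ K b)) ⟨p, u⟩ ^ 2 ≤ D * 4 := by
    intro p
    refine (Finset.sum_le_card_nsmul _ _ 4 fun u _ => (le_abs_self _).trans (hTb _)).trans ?_
    rw [nsmul_eq_mul, Finset.card_univ]
    refine mul_le_mul_of_nonneg_right ?_ (by norm_num)
    rw [hD]
    exact_mod_cast card_hom_le (K := K) p
  have hu0 : ∀ p : Nat.Primes, 0 ≤ ∑ u : 𝓞 K →+* ZMod (p : ℕ),
      TT (syE (PP K a) (QQ K b)) ⟨p, u⟩ ^ 2 :=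
    fun p => Finset.sum_nonneg fun u _ => sq_nonneg _
  have hs1 := Pool.Agent.Y722.EP.summable_E (B := D * 4)
    (φ := fun p : Nat.Primes => ∑ u : 𝓞 K →+* ZMod (p : ℕ),
      TT (syE (PP K a) (QQ K b)) ⟨p, u⟩ ^ 2) (fun p => by
      rw [abs_of_nonneg (hu0 p)]; exact hub p) hε
  have hs4 := Pool.Agent.Y722.EP.summable_E (B := 8 * D)
    (φ := fun p : Nat.Primes => k (vx (xQ p))) (fun p => hkB _) hε
  have hpt : ∀ p : Nat.Primes, p ∉ S → ∑ u : 𝓞 K →+* ZMod (p : ℕ),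
      TT (syE (PP K a) (QQ K b)) ⟨p, u⟩ ^ 2 ≤ c * (tt f p * tt f p) + k (vx (xQ p)) := by
    intro p hp
    have ht4 : tt f p * tt f p ≤ 4 := (le_abs_self _).trans (htb p)
    have ht0 : 0 ≤ tt f p * tt f p := mul_self_nonneg _
    by_cases hv : vx (xQ p) ∈ S₂
    · refine (hub p).trans ?_
      rw [hk]
      simp only
      rw [if_pos hv]
      have := hg0 (vx (xQ p))
      have := mul_nonneg hc ht0
      linarith
    · have hp' : ¬ ((p : ℕ) : ℤ) ∣ 6 * (4 * a ^ 3 + 27 * b ^ 2) := by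
        intro h3
        apply hp
        rw [hS, Set.Finite.mem_toFinset]
        exact h3
      have q3 : ∀ u : 𝓞 K →+* ZMod (p : ℕ), TT (syE (PP K a) (QQ K b)) ⟨p, u⟩ ^ 2 =
          tt f p * tt f p := by
        intro u
        rw [TT_newform hf ⟨p, u⟩ hp', sq]
      rw [Finset.sum_congr rfl fun u _ => q3 u, Finset.sum_const, nsmul_eq_mul, Finset.card_univ]
      have q4 : (Fintype.card (𝓞 K →+* ZMod (p : ℕ)) : ℝ) = fixn ℚ K (σ (vx (xQ p))) := by
        rw [← hS₂ (xQ p) hv _ (hσ _), push_one]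
        have e : Nat.card {ψ : 𝓞 K →+* ZMod ((xQ p).1 : ℕ) //
            ψ.comp (algebraMap (𝓞 ℚ) (𝓞 K)) = (xQ p).2} = Nat.card (𝓞 K →+* ZMod (p : ℕ)) :=
          Nat.card_congr (Equiv.subtypeUnivEquiv fun ψ => hom_Q_unique _ _)
        rw [e, Nat.card_eq_fintype_card]
      rw [q4, hk]
      simp only
      rw [if_neg hv, add_zero, hg]
      simp only
      rcases le_total c (fixn ℚ K (σ (vx (xQ p))) : ℝ) with hle | hle
      · rw [max_eq_left (by linarith)]
        nlinarith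
      · rw [max_eq_right (by linarith)]
        nlinarith
  have hle : ∀ p : Nat.Primes, (∑ u : 𝓞 K →+* ZMod (p : ℕ),
      TT (syE (PP K a) (QQ K b)) ⟨p, u⟩ ^ 2) * ((p : ℕ) : ℝ) ^ (-(1 + ε)) ≤
      (c * ((tt f p * tt f p) * ((p : ℕ) : ℝ) ^ (-(1 + ε))) +
        k (vx (xQ p)) * ((p : ℕ) : ℝ) ^ (-(1 + ε))) + (if p ∈ S then D * 4 else 0) := by
    intro p
    have hw0 : 0 ≤ ((p : ℕ) : ℝ) ^ (-(1 + ε)) := by positivity
    have hw1 : ((p : ℕ) : ℝ) ^ (-(1 + ε)) ≤ 1 :=
      Real.rpow_le_one_of_one_le_of_nonpos (by exact_mod_cast p.2.one_le) (by linarith)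
    by_cases hp : p ∈ S
    · rw [if_pos hp]
      have q1 : (∑ u : 𝓞 K →+* ZMod (p : ℕ), TT (syE (PP K a) (QQ K b)) ⟨p, u⟩ ^ 2) *
          ((p : ℕ) : ℝ) ^ (-(1 + ε)) ≤ D * 4 := by
        calc _ ≤ (D * 4) * 1 := mul_le_mul (hub p) hw1 hw0 (by positivity)
          _ = D * 4 := mul_one _
      have q2 : 0 ≤ c * ((tt f p * tt f p) * ((p : ℕ) : ℝ) ^ (-(1 + ε))) :=
        mul_nonneg hc (mul_nonneg (mul_self_nonneg _) hw0)
      have q3 : 0 ≤ k (vx (xQ p)) * ((p : ℕ) : ℝ) ^ (-(1 + ε)) := mul_nonneg (hk0 _) hw0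
      linarith
    · rw [if_neg hp, add_zero, ← mul_assoc, ← add_mul]
      exact mul_le_mul_of_nonneg_right (hpt p hp) hw0
  have hs3 : Summable fun p : Nat.Primes => if p ∈ S then D * 4 else 0 :=
    summable_of_ne_finset_zero (s := S) fun p hp => if_neg hp
  have e7 : (sysH ℚ).E ε (fun x : HX ℚ => k (vx x)) =
      ∑' p : Nat.Primes, k (vx (xQ p)) * ((p : ℕ) : ℝ) ^ (-(1 + ε)) := by
    have e8 := EH_eq (K := ℚ) hε (φ := fun x : HX ℚ => k (vx x)) (fun x => hkB _)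
    refine e8.trans ?_
    unfold Pool.Agent.H341R2.E
    refine tsum_congr fun p => ?_
    have e9 := sum_homQ p fun x => k (vx x)
    exact congrArg (fun y : ℝ => y * ((p : ℕ) : ℝ) ^ (-(1 + ε))) e9
  rw [e7] at hk'
  unfold Pool.Agent.H341R2.E at h1 ⊢
  have h4 := hs1.tsum_le_tsum hle (((hs2.mul_left c).add hs4).add hs3)
  rw [((hs2.mul_left c).add hs4).tsum_add hs3, (hs2.mul_left c).tsum_add hs4, tsum_mul_left,
      tsum_eq_sum (s := S) fun p hp => if_neg hp,
      Finset.sum_congr rfl fun p hp => if_pos hp, Finset.sum_const, nsmul_eq_mul] at h4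
  have h5 := mul_le_mul_of_nonneg_left h1 hc
  have e5 : LL ε = Real.log (1 / ε) := rfl
  rw [e5] at hk' ⊢
  refine h4.trans ?_
  have e6 : c * (Real.log (1 / ε) + C) = c * Real.log (1 / ε) + c * C := by ring
  rw [e6] at h5
  have h7 := add_le_add (add_le_add h5 hk') (le_refl ((S.card : ℝ) * (D * 4)))
  refine h7.trans (le_of_eq ?_)
  ring

theorem exc_finrank : exc K (Module.finrank ℚ K) = 0 := by
  unfold exc
  have e : (fun q : GK ℚ ⧸ (act ℚ K).ker =>
      max ((fixn ℚ K q.out : ℝ) - (Module.finrank ℚ K : ℝ)) 0) = fun _ => 0 := by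
    funext q
    exact max_eq_right (by have := fixn_le (K := ℚ) (F := K) q.out; linarith)
  rw [e]
  unfold avR
  simp

end

end Pool.Agent.T2h85.HW
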