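import Pool.Agent.T2h85.HW.Defs
import Pool.Agent.T2h85.HW.Sec2

/-! The constants `edgeConst K c`, and the second moment. -/

set_option autoImplicit false
open Classical

namespace Pool.Agent.T2h85.HW

open Complex Filter Topology ComplexConjugate NumberField IsDedekindDomain Asymptotics
  Pool.Agent.W401.Cheb Pool.Agent.W540.BE Pool.Agent.W353.L1 Pool.Agent.W353.NF
open Pool.Agent.W353.EF (perm derangements)
open Pool.Agent.Y722.EP (IsModular)
open Pool.Agent.X288.L2 (Sec PP QQ mean_fix)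
open Pool.Agent.TH322.BC
open Pool.Agent.W353.AB (syE)

section
variable (K : Type) [Field K] [NumberField K]

theorem edgeConst_eq (c : ℝ) : edgeConst K c = c + 4 * exc K c := by
  unfold edgeConst exc
  have g1 := avR_ker (act ℚ K) fun π => max (((Nat.card {y // π y = y} : ℕ) : ℝ) - c) 0
  have g2 : (fun q : GK ℚ ⧸ (act ℚ K).ker => max ((fixn ℚ K q.out : ℝ) - c) 0) = fun q =>
      max (((Nat.card {y // act ℚ K q.out y = y} : ℕ) : ℝ) - c) 0 := rfl
  rw [g2, g1]
  have e : perm ℚ K = act ℚ K := rfl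
  rw [e, div_eq_inv_mul]

theorem exc_nonneg (c : ℝ) : 0 ≤ exc K c := by
  have hfin : Finite (GK ℚ ⧸ (act ℚ K).ker) :=
    Subgroup.quotient_finite_of_isOpen _ (ker_act_open ℚ K)
  unfold exc
  exact avR_nonneg _ fun q => le_max_right _ _

theorem edgeConst_nonneg {c : ℝ} (hc : 0 ≤ c) : 0 ≤ edgeConst K c := by
  rw [edgeConst_eq]
  have := exc_nonneg K c
  linarith

theorem edgeConst_finrank : edgeConst K (Module.finrank ℚ K) = Module.finrank ℚ K := by
  rw [edgeConst_eq, exc_finrank]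
  ring

theorem exc_one : exc K 1 = derangements ℚ K := by
  have hfin : Finite (GK ℚ ⧸ (act ℚ K).ker) :=
    Subgroup.quotient_finite_of_isOpen _ (ker_act_open ℚ K)
  have h1 := mean_drg (K := ℚ) K
  have h2 := mean_fix (K := ℚ) (F := K)
  have e : (fun q : GK ℚ ⧸ (act ℚ K).ker => |(fixn ℚ K q.out : ℝ) - 1|) = fun q =>
      2 * max ((fixn ℚ K q.out : ℝ) - 1) 0 + ((-1) * (fixn ℚ K q.out : ℝ) + 1) := by
    funext q
    rcases le_total (1 : ℝ) (fixn ℚ K q.out : ℝ) with h | h
    · rw [max_eq_left (by linarith), abs_of_nonneg (by linarith)]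
      ring
    · rw [max_eq_right (by linarith), abs_of_nonpos (by linarith)]
      ring
  rw [e, avR_add, avR_add, avR_const_mul, avR_const_mul, h2] at h1
  have h3 : (avR (act ℚ K).ker fun _ => (1 : ℝ)) = 1 := by
    unfold avR
    let _ : Fintype (GK ℚ ⧸ (act ℚ K).ker) := Fintype.ofFinite _
    rw [finsum_eq_sum_of_fintype, Finset.sum_const, nsmul_eq_mul, mul_one, Finset.card_univ,
      ← Nat.card_eq_fintype_card]
    exact inv_mul_cancel₀ (by exact_mod_cast Nat.card_pos.ne')
  rw [h3] at h1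
  have h4 : derangements ℚ K = drg ℚ K := rfl
  rw [h4]
  unfold exc
  linarith

theorem edgeConst_one : edgeConst K 1 = 1 + 4 * derangements ℚ K := by
  rw [edgeConst_eq, exc_one]

theorem derangements_le (hs : Function.Surjective (perm ℚ K)) (hn : 3 ≤ Module.finrank ℚ K) :
    derangements ℚ K ≤ 3 / 8 := drg_le ℚ K hs hn

/-- the second moment -/
theorem sec_edge {a b : ℤ} (hab : 4 * a ^ 3 + 27 * b ^ 2 ≠ 0) (h : IsModular a b) {c : ℝ}
    (hc : 0 ≤ c) {η : ℝ} (hη : 0 < η) :
    Sec (TT (syE (PP K a) (QQ K b))) (edgeConst K c + η) := by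
  rw [edgeConst_eq]
  exact sec_exc hab h hc hη

end

end Pool.Agent.T2h85.HW
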