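import Pool.Agent.X288.L2.Defs
import Pool.Agent.W353.AT.Defs

/-!
# Artin twists of a rational elliptic curve over number fields: definitions

`E : y² = x³ + a x + b` is an elliptic curve over `ℚ`, `a, b ∈ ℤ`, `K` is a number field and `ρ` a complex
representation of the absolute Galois group of `K` that is trivial on an open subgroup (an Artin
representation).  `L(E/K, ρ, s)` is an Euler product over the primes of `K`; for the constituents `ρ` of
the permutation representation of the Galois group of `K` on the `K`-embeddings of an extension `F`, the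
product of the `L(E/K, ρ, s)` is `L(E/F, s)`.
-/

set_option autoImplicit false
open Classical

namespace Pool.Agent.T2h85.HW

open NumberField IsDedekindDomain Filter Topology Polynomial
open Pool.Agent.W353.AT (IsFrobeniusElement IsArtin)
open Pool.Agent.W353.EF (LFun perm)
open Pool.Agent.Y722.EP (trace)
open Pool.Agent.X288.L2 (EC)
open Pool.Agent.TH322.BC.Edge (MinimalModels LimsupLE)

section
variable {K : Type} [Field K] [NumberField K] {n : ℕ}

/-- The polynomials `B v` are the Euler factors of `L(E/K, ρ, s)`: for almost all primes `v` of `K`,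
`B_v(z) = det(1 - a_v z ρ(σ⁻¹) + q_v z² ρ(σ⁻¹)²)`, where `σ` is a Frobenius element at `v` and
`a_v = q_v + 1 - #E(𝔽_v)`; this is `det(1 - z α ρ(σ⁻¹)) det(1 - z α' ρ(σ⁻¹))` with the Frobenius
eigenvalues `α`, `α'` of `E` at `v`.  At the other primes `B v` is an arbitrary polynomial, and no factor
`1 / B_v(q_v^{-s})` has a pole at the point `s = 3/2 + iτ`. -/
def IsTwist (a b : ℤ) (ρ : Representation ℂ Gal(AlgebraicClosure K/K) (Fin n → ℂ)) (τ : ℝ)
    (B : HeightOneSpectrum (𝓞 K) → ℂ[X]) : Prop :=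
  (∀ᶠ v in cofinite, ∀ σ, IsFrobeniusElement v σ → ∀ z : ℂ,
    (B v).eval z = LinearMap.det (1 - ((trace v a b : ℂ) * z) • ρ σ⁻¹ +
      ((Ideal.absNorm v.asIdeal : ℂ) * z ^ 2) • (ρ σ⁻¹ * ρ σ⁻¹))) ∧
  ∀ v, (B v).eval ((Ideal.absNorm v.asIdeal : ℂ) ^ (-(3 / 2 + τ * Complex.I))) ≠ 0

/-- `log |L(E/K, ρ, 3/2 + iτ + ε)| / log(1/ε)`; for a function with a meromorphic continuation of order
`m` at `3/2 + iτ` it tends to `-m` as `ε → 0+`. -/
noncomputable def size (τ : ℝ) (B : HeightOneSpectrum (𝓞 K) → ℂ[X]) (ε : ℝ) : ℝ :=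
  Real.log ‖LFun B (3 / 2 + τ * Complex.I + ε)‖ / Real.log (1 / ε)

/-- `L(E/K, ρ, s)` has a meromorphic continuation to a neighbourhood of `3/2 + iτ`, of order `m` at this
point (`m < 0` for a pole, `m > 0` for a zero). -/
def TwistOrder (a b : ℤ) (ρ : Representation ℂ Gal(AlgebraicClosure K/K) (Fin n → ℂ)) (τ : ℝ)
    (m : ℤ) : Prop :=
  ∃ B : HeightOneSpectrum (𝓞 K) → ℂ[X], IsTwist a b ρ τ B ∧
    ∃ Λ : ℂ → ℂ, MeromorphicAt Λ (3 / 2 + τ * Complex.I) ∧
      (∀ᶠ s in 𝓝 ((3 / 2 : ℂ) + τ * Complex.I), (3 / 2 : ℝ) < s.re → Λ s = LFun B s) ∧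
      meromorphicOrderAt Λ (3 / 2 + τ * Complex.I) = m

end

section
variable (K : Type) [Field K] [NumberField K]

/-- `c + 4 · mean of max (fix(g) - c, 0)`: the mean value over the group of the permutations `g` of the
embeddings of `K` in `ℚ̄` given by the absolute Galois group of `ℚ` (the Galois group of the normal closure
of `K`), where `fix(g)` is the number of the embeddings fixed by `g`. -/
noncomputable def edgeConst (c : ℝ) : ℝ :=
  c + 4 * ((∑ᶠ g : (perm ℚ K).range, max ((Nat.card {i // g.1 i = i} : ℝ) - c) 0) /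
    Nat.card (perm ℚ K).range)

/-- **Bessel's inequality.**  Let `(ρ_k, τ_k)`, `k` in a finite set, be pairs of an irreducible Artin
representation of `K` and a real number, with `ρ_k` not isomorphic to `ρ_l` if `k ≠ l` and
`τ_k = τ_l`, and let `β = edgeConst K c` for some `c ≥ 0`.  Then `L(E/K, ρ_k, s_k + ε) ≠ 0` for
`s_k = 3/2 + iτ_k` and small `ε > 0`, and for every `η > 0` and all small `ε > 0` the sum of the squares
of `log |L(E/K, ρ_k, s_k + ε)| / log(1/ε)` is at most `β + η` (no continuation is assumed here).  If there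
are meromorphic continuations, then `∑ m_k² ≤ β` for their orders `m_k` at `s_k`. -/
def Bessel (a b : ℤ) : Prop :=
  ∀ (κ : Type) [Fintype κ] (n : κ → ℕ)
    (ρ : ∀ k, Representation ℂ Gal(AlgebraicClosure K/K) (Fin (n k) → ℂ)) (τ : κ → ℝ),
    (∀ k, IsArtin (ρ k)) → (∀ k, (ρ k).IsIrreducible) →
    (∀ k l, k ≠ l → τ k = τ l → IsEmpty ((ρ k).Equiv (ρ l))) → ∀ c : ℝ, 0 ≤ c →
    (∀ B : κ → HeightOneSpectrum (𝓞 K) → ℂ[X], (∀ k, IsTwist a b (ρ k) (τ k) (B k)) →
      (∀ k, ∀ᶠ ε : ℝ in 𝓝[>] 0, LFun (B k) (3 / 2 + τ k * Complex.I + ε) ≠ 0) ∧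
      ∀ η : ℝ, 0 < η → ∀ᶠ ε : ℝ in 𝓝[>] 0,
        ∑ k, (size (τ k) (B k) ε) ^ 2 ≤ edgeConst K c + η) ∧
    ∀ m : κ → ℤ, (∀ k, TwistOrder a b (ρ k) (τ k) (m k)) →
      ((∑ k, m k ^ 2 : ℤ) : ℝ) ≤ edgeConst K c

/-- **No zeros and poles.**  Let `β = edgeConst K c` for some `c ≥ 0`.
* If `ρ` is an irreducible Artin representation of `K`, and `τ ≠ 0` or the character of `ρ` is not real,
then `limsup (log |L(E/K, ρ, 3/2 + iτ + ε)| / log(1/ε))² ≤ β/2` as `ε → 0+` (no continuation is assumed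
here), and `2 m² ≤ β` for the order `m` at `3/2 + iτ`, if there is a meromorphic continuation to a
neighbourhood of this point.  So, if `β < 2`, there is no zero and no pole.
* If `K = ℚ`, `ρ` is an irreducible Artin representation of dimension at least three, then there is
`C < 1` such that, for all choices of the finitely many other Euler factors,
`limsup |log |L(E/ℚ, ρ, 3/2 + iτ + ε)| / log(1/ε)| ≤ C`; and the order at `3/2 + iτ` is zero, if there is
a continuation.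
* If `β < 2` for some `c ≥ 0`, then among all pairs `(ρ, τ)` of an irreducible Artin representation of `K`
and a real number there is up to isomorphism at most one for which there is a continuation of order
different from zero; then `τ = 0`, `ρ` has a real character, the order is `±1`, and if `K = ℚ` the
dimension of `ρ` is at most two. -/
def NoZerosPoles (a b : ℤ) : Prop :=
  (∀ (n : ℕ) (ρ : Representation ℂ Gal(AlgebraicClosure K/K) (Fin n → ℂ)) (τ : ℝ),
    IsArtin ρ → ρ.IsIrreducible → (τ ≠ 0 ∨ ∃ g, (ρ.character g).im ≠ 0) → ∀ c : ℝ, 0 ≤ c →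
    (∀ B : HeightOneSpectrum (𝓞 K) → ℂ[X], IsTwist a b ρ τ B →
      ∀ η : ℝ, 0 < η → ∀ᶠ ε : ℝ in 𝓝[>] 0, size τ B ε ^ 2 ≤ edgeConst K c / 2 + η) ∧
    ∀ m : ℤ, TwistOrder a b ρ τ m → 2 * (m : ℝ) ^ 2 ≤ edgeConst K c) ∧
  (Module.finrank ℚ K = 1 →
    ∀ (n : ℕ) (ρ : Representation ℂ Gal(AlgebraicClosure K/K) (Fin n → ℂ)) (τ : ℝ),
    IsArtin ρ → ρ.IsIrreducible → 3 ≤ n →
    (∃ C : ℝ, 0 ≤ C ∧ C < 1 ∧
      ∀ B : HeightOneSpectrum (𝓞 K) → ℂ[X], IsTwist a b ρ τ B → LimsupLE (size τ B) C) ∧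
    ∀ m : ℤ, TwistOrder a b ρ τ m → m = 0) ∧
  ((∃ c : ℝ, 0 ≤ c ∧ edgeConst K c < 2) →
    ∀ (n n' : ℕ) (ρ : Representation ℂ Gal(AlgebraicClosure K/K) (Fin n → ℂ))
    (ρ' : Representation ℂ Gal(AlgebraicClosure K/K) (Fin n' → ℂ)) (τ τ' : ℝ) (m m' : ℤ),
    IsArtin ρ → IsArtin ρ' → ρ.IsIrreducible → ρ'.IsIrreducible →
    TwistOrder a b ρ τ m → TwistOrder a b ρ' τ' m' → m ≠ 0 → m' ≠ 0 →
    τ = 0 ∧ τ' = 0 ∧ Nonempty (ρ.Equiv ρ') ∧ |m| = 1 ∧ (∀ g, (ρ.character g).im = 0) ∧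
      (Module.finrank ℚ K = 1 → n ≤ 2))

/-- **Base change to an arbitrary extension `F` of `K`.**  Let `ρ_k` be pairwise non-isomorphic
irreducible Artin representations of `K` and `c_k` integers with
`∑ c_k χ_k(g) = #{i : F → K̄ | g i = i}` for the characters `χ_k` and all `g` (the permutation
representation on the `K`-embeddings of `F` is `⊕ c_k ρ_k`), and suppose that the functions
`L(E/K, ρ_k, s)` have meromorphic continuations to a neighbourhood of `3/2 + iτ`.
* `log |L(E/F, 3/2 + iτ + ε)| / log(1/ε)` tends to an integer `-M` as `ε → 0+`; if `L(E/F, s)` has a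
meromorphic continuation to a neighbourhood of `3/2 + iτ`, then `M` is its order; and
`M² ≤ β ∑ c_k²` for `β = edgeConst K c`, `c ≥ 0`.
* If `β < 2` for some `c ≥ 0`, then `M = 0`, or `M = ± c_k` for some `k` and `τ = 0`, the character of
`ρ_k` is real, and if `K = ℚ` the dimension of `ρ_k` is at most two. -/
def BaseChange (a b : ℤ) : Prop :=
  ∀ (F : Type) [Field F] [NumberField F] [Algebra K F]
    (V : HeightOneSpectrum (𝓞 F) → WeierstrassCurve (𝓞 F)),
    MinimalModels ((EC K a b).map (algebraMap K F)) V →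
    ∀ (κ : Type) [Fintype κ] (n : κ → ℕ)
      (ρ : ∀ k, Representation ℂ Gal(AlgebraicClosure K/K) (Fin (n k) → ℂ)) (c : κ → ℤ) (τ : ℝ),
      (∀ k, IsArtin (ρ k)) → (∀ k, (ρ k).IsIrreducible) →
      (∀ k l, k ≠ l → IsEmpty ((ρ k).Equiv (ρ l))) →
      (∀ g : Gal(AlgebraicClosure K/K), ∑ k, (c k : ℂ) * (ρ k).character g =
        (Nat.card {i : F →ₐ[K] AlgebraicClosure K // ∀ x, g (i x) = i x} : ℂ)) →
      ∀ m : κ → ℤ, (∀ k, TwistOrder a b (ρ k) τ (m k)) →
        ∃ M : ℤ, Tendsto (Pool.Agent.TH322.BC.Edge.size V τ) (𝓝[>] 0) (𝓝 (-(M : ℝ))) ∧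
          (∀ M' : ℤ, Pool.Agent.TH322.BC.Edge.HasOrder V τ M' → M' = M) ∧
          (∀ d : ℝ, 0 ≤ d → (M : ℝ) ^ 2 ≤ edgeConst K d * ((∑ k, c k ^ 2 : ℤ) : ℝ)) ∧
          ((∃ d : ℝ, 0 ≤ d ∧ edgeConst K d < 2) → M ≠ 0 →
            ∃ k, |M| = |c k| ∧ τ = 0 ∧ (∀ g, ((ρ k).character g).im = 0) ∧
              (Module.finrank ℚ K = 1 → n k ≤ 2))

end

end Pool.Agent.T2h85.HW
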