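import Pool.Agent.T2h85.HW.Tw
import Pool.Agent.T2h85.HW.Conj
import Pool.Agent.X288.L2.Base

/-! Artin twists of a rational elliptic curve on the line `Re s = 3/2`: proofs. -/

set_option autoImplicit false

namespace Pool.Agent.T2h85.HW

open Complex Filter Topology ComplexConjugate NumberField IsDedekindDomain Asymptotics
  Pool.Agent.W401.Cheb Pool.Agent.W540.BE Pool.Agent.W353.L1 Pool.Agent.W353.NF Polynomial
open Pool.Agent.W353.TP (HX sysH LL LL_tendsto E_H EH_eq bdd_isLittleO lam0_sub)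
open Pool.Agent.H341R2 (lam lam_tendsto sysK)
open Pool.Agent.W353.EF (LFun)
open Pool.Agent.W353.AT (IsFrobeniusElement IsArtin exists_common)
open Pool.Agent.Y722.EP (trace rE rE_eq abs_rE rE_kerPrime IsModular finite_dvd)
open Pool.Agent.X288.L2 (Sec PP QQ TT_newform abs_TT_le sec_curve Cls has_pair hw_self EC)
open Pool.Agent.TH322.BC (avR_add)
open Pool.Agent.W353.AB (syE)
open Pool.Agent.TH322.BC.Edge (MinimalModels LimsupLE)

section
variable {K : Type} [Field K] [NumberField K] {a b : ℤ}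

/-- **The size of a twist.** -/
theorem tw_size (hab : 4 * a ^ 3 + 27 * b ^ 2 ≠ 0) (hmod : IsModular a b)
    (U : Subgroup (GK K)) [U.Normal] [Finite (GK K ⧸ U)]
    {n : ℕ} (ρ : Representation ℂ (GK K) (Fin n → ℂ)) (hρ : ∀ u ∈ U, ρ u = 1) (τ : ℝ)
    (B : HeightOneSpectrum (𝓞 K) → ℂ[X]) (hB : IsTwist a b ρ τ B)
    (σ : HeightOneSpectrum (𝓞 K) → GK K) (hσ : ∀ v, IsFrob v (σ v)) :
    (∀ᶠ ε : ℝ in 𝓝[>] 0, LFun B (3 / 2 + τ * Complex.I + ε) ≠ 0) ∧
    SzH (TT (syE (PP K a) (QQ K b))) (RR ρ τ σ) (size τ B) := by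
  classical
  obtain ⟨N, hN, f, hf⟩ := hmod
  have h := tw_size0 a b U ρ hρ τ B hB σ hσ
  refine ⟨h.1, toSzH (abs_TT_le a b) (abs_rE a b) (abs_RR_le U ρ hρ τ σ)
    (finite_dvd (mul_ne_zero (by norm_num : (6 : ℤ) ≠ 0) hab)).toFinset (fun x hx => ?_) h.2⟩
  rw [Set.Finite.mem_toFinset] at hx
  have hx' : ¬ (((x.1 : ℕ) : ℤ)) ∣ 6 * (4 * a ^ 3 + 27 * b ^ 2) := hx
  rw [TT_newform hf x hx']
  refine (rE_kerPrime hf x.1 (fun hd => hx' ?_) x.2).symm
  have e : (6 : ℤ) * (4 * a ^ 3 + 27 * b ^ 2) = 3 * (2 * (4 * a ^ 3 + 27 * b ^ 2)) := by ring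
  rw [e]
  exact hd.mul_left 3

theorem tw_lim (hab : 4 * a ^ 3 + 27 * b ^ 2 ≠ 0) (hmod : IsModular a b)
    {n : ℕ} {ρ : Representation ℂ (GK K) (Fin n → ℂ)} (hA : IsArtin ρ) {τ : ℝ}
    {B : HeightOneSpectrum (𝓞 K) → ℂ[X]} (hB : IsTwist a b ρ τ B) {m : ℤ}
    (hm : ∃ Λ : ℂ → ℂ, MeromorphicAt Λ (3 / 2 + τ * Complex.I) ∧
      (∀ᶠ s in 𝓝 ((3 / 2 : ℂ) + τ * Complex.I), (3 / 2 : ℝ) < s.re → Λ s = LFun B s) ∧
      meromorphicOrderAt Λ (3 / 2 + τ * Complex.I) = m) :
    Tendsto (size τ B) (𝓝[>] 0) (𝓝 (-(m : ℝ))) := by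
  obtain ⟨U, hUn, hU, hρ⟩ := exists_common (fun _ : Unit => ρ) fun _ => hA
  have hfin : Finite (GK K ⧸ U) := Subgroup.quotient_finite_of_isOpen U hU
  choose σ hσ using exists_isFrob (F := K)
  obtain ⟨Λ, h1, h2, h3⟩ := hm
  have hre : ((3 / 2 : ℂ) + τ * Complex.I).re = 3 / 2 := by
    simp
  exact Pool.Agent.W353.PV.lim_ord (tw_size hab hmod U ρ (hρ ()) τ B hB σ hσ).1 h1
    (h2.mono fun s hs hs' => hs (by rwa [hre] at hs')) h3

/-- **Bessel's inequality.** -/
theorem bessel_thm (hab : 4 * a ^ 3 + 27 * b ^ 2 ≠ 0) (hmod : IsModular a b) : Bessel K a b := by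
  classical
  intro κ _ n ρ τ hA hirr hne c hc
  obtain ⟨U, hUn, hU, hρ⟩ := exists_common ρ hA
  have hfin : Finite (GK K ⧸ U) := Subgroup.quotient_finite_of_isOpen U hU
  choose σ hσ using exists_isFrob (F := K)
  have hm := fun c : κ → ℝ => sq_comb U hU Finset.univ ρ hρ τ σ hσ (fun k _ => hirr k)
    (fun k _ l _ => hne k l) c
  have hR : ∀ k ∈ (Finset.univ : Finset κ), ∀ v, |RR (ρ k) (τ k) σ v| ≤ (n k : ℝ) :=
    fun k _ v => abs_RR_le U (ρ k) (hρ k) (τ k) σ v
  have hβ := edgeConst_nonneg K hc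
  refine ⟨fun B hB => ⟨fun k => (tw_size hab hmod U (ρ k) (hρ k) (τ k) (B k) (hB k) σ hσ).1,
    fun η hη => ?_⟩, fun m hm' => ?_⟩
  · have h1 := bessel_sec Finset.univ (abs_TT_le a b) (sec_edge K hab hmod hc (half_pos hη))
      (by positivity) hR
      (fun k _ => (tw_size hab hmod U (ρ k) (hρ k) (τ k) (B k) (hB k) σ hσ).2) hm (half_pos hη)
    exact h1.mono fun ε hε => by linarith
  · choose B hB hm' using hm'
    refine le_of_forall_pos_le_add fun η hη => ?_
    have h1 := bessel_sec_lim Finset.univ (abs_TT_le a b) (sec_edge K hab hmod hc hη)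
      (by positivity) hR
      (fun k _ => (tw_size hab hmod U (ρ k) (hρ k) (τ k) (B k) (hB k) σ hσ).2) hm
      (fun k _ => tw_lim hab hmod (hA k) (hB k) (hm' k))
    have h2 : ∑ k, (-(m k : ℝ)) ^ 2 = ((∑ k, m k ^ 2 : ℤ) : ℝ) := by
      push_cast
      exact Finset.sum_congr rfl fun k _ => by ring
    rw [h2] at h1
    exact h1

theorem limsup_of_sq {x : ℝ → ℝ} {A : ℝ}
    (h : ∀ η : ℝ, 0 < η → ∀ᶠ ε : ℝ in 𝓝[>] 0, x ε ^ 2 ≤ A + η) (hA : 0 ≤ A) :
    LimsupLE x (Real.sqrt A) := by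
  intro η hη
  refine (h (η ^ 2) (by positivity)).mono fun ε hε => ?_
  have h1 : x ε ^ 2 ≤ (Real.sqrt A + η) ^ 2 := by
    have h2 := Real.sq_sqrt hA
    have h3 := Real.sqrt_nonneg A
    nlinarith
  have h4 : 0 ≤ Real.sqrt A + η := by positivity
  exact abs_le_of_sq_le_sq h1 h4

end

section
variable {K : Type} [Field K] [NumberField K] {U : Subgroup (GK K)} [U.Normal]
  [Finite (GK K ⧸ U)] {n : ℕ} {ρ : Representation ℂ (GK K) (Fin n → ℂ)} (hρ : ∀ u ∈ U, ρ u = 1)

omit [U.Normal] [Finite (GK K ⧸ U)] in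
include hρ in
theorem char_mul_U (g u : GK K) (hu : u ∈ U) : ρ.character (g * u) = ρ.character g := by
  unfold Representation.character
  rw [map_mul, hρ u hu, mul_one]

omit [U.Normal] [Finite (GK K ⧸ U)] in
include hρ in
theorem char_out (g : GK K) :
    ρ.character (QuotientGroup.mk g : GK K ⧸ U).out = ρ.character g := by
  have h2 : (QuotientGroup.mk g : GK K ⧸ U) = QuotientGroup.mk (QuotientGroup.mk g :
      GK K ⧸ U).out := by
    rw [QuotientGroup.out_eq']
  rw [QuotientGroup.eq] at h2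
  have h3 := char_mul_U hρ g _ h2
  rw [mul_inv_cancel_left] at h3
  exact h3

include hρ in
theorem char_inv' (g : GK K) : ρ.character g⁻¹ = conj (ρ.character g) := by
  have h := char_conj_eq U ρ hρ g
  rw [← h, Complex.conj_conj]

include hρ in
theorem cls_re : Cls U fun g => (ρ.character g).re where
  hU g u hu := by rw [char_mul_U hρ g u hu]
  hc g x := by rw [Representation.char_conj]
  hi g := by rw [char_inv' hρ, Complex.conj_re]

include hρ in
theorem chF_f (q : GK K ⧸ U) : (chF U (κ := Unit) (fun _ => ρ) (fun _ => hρ) ()).f q =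
    conj (ρ.character q.out) := by
  have e2 : q = QuotientGroup.mk q.out := (QuotientGroup.out_eq' q).symm
  have e1 : (chF U (κ := Unit) (fun _ => ρ) (fun _ => hρ) ()).f q = ρ.character (q.out)⁻¹ := by
    conv_lhs => rw [e2]
    rfl
  rw [e1, char_inv' hρ]

include hρ in
theorem mean_norm (hirr : ρ.IsIrreducible) :
    (avR U fun q => ‖ρ.character q.out‖ ^ 2) = 1 := by
  classical
  have h := avC_ortho U (κ := Unit) (fun _ => ρ) (fun _ => hρ) (k := ()) (l := ()) hirr hirr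
  rw [if_pos ⟨Representation.Equiv.refl _⟩] at h
  have e : (fun q => (chF U (κ := Unit) (fun _ => ρ) (fun _ => hρ) ()).f q *
      conj ((chF U (κ := Unit) (fun _ => ρ) (fun _ => hρ) ()).f q)) =
      fun q => ((‖ρ.character q.out‖ ^ 2 : ℝ) : ℂ) := by
    funext q
    rw [chF_f hρ, Complex.conj_conj, mul_comm, Complex.mul_conj,
      Complex.normSq_eq_norm_sq]
  rw [e, avC_ofReal] at h
  exact_mod_cast h

include hρ in
theorem mean_re_le (hirr : ρ.IsIrreducible) :
    (avR U fun q => (ρ.character q.out).re ^ 2) ≤ 1 := by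
  rw [← mean_norm hρ hirr]
  refine Pool.Agent.TH322.BC.avR_mono_le U fun q => ?_
  rw [← sq_abs]
  exact pow_le_pow_left₀ (abs_nonneg _) (Complex.abs_re_le_norm _) 2

theorem avC_re (f : GK K ⧸ U → ℂ) : (avC U f).re = avR U fun q => (f q).re := by
  unfold avC avR
  let _ : Fintype (GK K ⧸ U) := Fintype.ofFinite _
  rw [finsum_eq_sum_of_fintype, finsum_eq_sum_of_fintype]
  have e : ((Nat.card (GK K ⧸ U) : ℂ))⁻¹ = (((Nat.card (GK K ⧸ U) : ℝ)⁻¹ : ℝ) : ℂ) := by
    push_cast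
    rfl
  rw [e, Complex.re_ofReal_mul, Complex.re_sum]

include hρ in
/-- the mean value of the square of a character that is not real -/
theorem mean_sq_zero (hirr : ρ.IsIrreducible) {g : GK K} (hg : (ρ.character g).im ≠ 0) :
    (avR U fun q => (ρ.character q.out ^ 2).re) = 0 := by
  classical
  have hρ' : ∀ u ∈ U, crep ρ u = 1 := fun u hu => crep_trivial ρ (hρ u hu)
  have h := avC_ortho U (κ := Bool) (n := fun _ => n) (fun t => cond t ρ (crep ρ))
    (fun t => match t with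
      | true => hρ
      | false => hρ') (k := true) (l := false) hirr (crep_irr ρ hirr)
  rw [if_neg (by rw [not_nonempty_iff]; exact crep_not_equiv ρ hg)] at h
  have e : (fun q : GK K ⧸ U => (chF U (κ := Bool) (n := fun _ => n)
      (fun t => cond t ρ (crep ρ)) (fun t => match t with
        | true => hρ
        | false => hρ') true).f q * conj ((chF U (κ := Bool) (n := fun _ => n)
      (fun t => cond t ρ (crep ρ)) (fun t => match t with
        | true => hρ
        | false => hρ') false).f q)) = fun q => conj (ρ.character q.out ^ 2) := by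
    funext q
    have e2 : q = QuotientGroup.mk q.out := (QuotientGroup.out_eq' q).symm
    have e3 : (chF U (κ := Bool) (n := fun _ => n)
        (fun t => cond t ρ (crep ρ)) (fun t => match t with
        | true => hρ
        | false => hρ') true).f q = ρ.character (q.out)⁻¹ := by
      conv_lhs => rw [e2]
      rfl
    have e4 : (chF U (κ := Bool) (n := fun _ => n)
        (fun t => cond t ρ (crep ρ)) (fun t => match t with
        | true => hρ
        | false => hρ') false).f q = (crep ρ).character (q.out)⁻¹ := by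
      conv_lhs => rw [e2]
      rfl
    rw [e3, e4, crep_char, Complex.conj_conj, char_inv' hρ, map_pow, sq]
  rw [e] at h
  have h2 := congrArg Complex.re h
  rw [avC_re, Complex.zero_re] at h2
  simpa only [Complex.conj_re] using h2

include hρ in
/-- the mean value of the square of the real part of a character that is not real -/
theorem mean_re_half (hirr : ρ.IsIrreducible) {g : GK K} (hg : (ρ.character g).im ≠ 0) :
    (avR U fun q => (ρ.character q.out).re ^ 2) = 1 / 2 := by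
  have h1 := mean_norm hρ hirr
  have h2 := mean_sq_zero hρ hirr hg
  have e : (fun q : GK K ⧸ U => (ρ.character q.out).re ^ 2) = fun q =>
      (1 / 2) * ‖ρ.character q.out‖ ^ 2 + (1 / 2) * (ρ.character q.out ^ 2).re := by
    funext q
    rw [Complex.sq_norm, Complex.normSq_apply, sq, sq, Complex.mul_re]
    ring
  rw [e, avR_add, avR_const_mul, avR_const_mul, h1, h2]
  norm_num

include hρ in
theorem RR_zero (σ : HeightOneSpectrum (𝓞 K) → GK K) (v : HeightOneSpectrum (𝓞 K)) :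
    RR ρ 0 σ v = (ρ.character (σ v)).re * cz 0 v := by
  have e4 : zz (0 : ℝ) v = 1 := by
    unfold zz
    simp
  unfold RR cz
  rw [e4, char_inv' hρ]
  simp

include hρ in
theorem has_half (hU : IsOpen (U : Set (GK K))) (σ : HeightOneSpectrum (𝓞 K) → GK K)
    (hσ : ∀ v, IsFrob v (σ v)) (hirr : ρ.IsIrreducible) {τ : ℝ}
    (h : τ ≠ 0 ∨ ∃ g, (ρ.character g).im ≠ 0) : Has (fun v => RR ρ τ σ v ^ 2) (1 / 2) := by
  classical
  by_cases hτ : τ = 0
  · subst hτ
    rcases h with h | ⟨g, hg⟩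
    · exact absurd rfl h
    · have h1 := has_pair hU σ hσ (cls_re hρ) (cls_re hρ) 0 0
      refine h1.congr (fun v => ?_) ?_
      · rw [RR_zero hρ, sq]
      · rw [hw_self, if_pos rfl, one_mul]
        have h2 := mean_re_half hρ hirr hg
        rw [← h2]
        congr 1
        funext q
        rw [sq]
  · have h1 := (chF U (κ := Unit) (fun _ => ρ) (fun _ => hρ) ()).has_mul_self hU σ hσ hτ
    refine h1.congr (fun v => ?_) ?_
    · rw [chF_R, sq]
    · have h2 := mean_norm hρ hirr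
      have h3 : (chF U (κ := Unit) (fun _ => ρ) (fun _ => hρ) ()).sq = 1 := by
        rw [← h2]
        unfold CF.sq
        congr 1
        funext q
        rw [chF_f hρ, RCLike.norm_conj]
      rw [h3, mul_one]

end

section
variable {K : Type} [Field K] [NumberField K] {a b : ℤ}

/-- sizes off the centre -/
theorem off_size (hab : 4 * a ^ 3 + 27 * b ^ 2 ≠ 0) (hmod : IsModular a b) {n : ℕ}
    (ρ : Representation ℂ (GK K) (Fin n → ℂ)) (τ : ℝ) (hA : IsArtin ρ) (hirr : ρ.IsIrreducible)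
    (ho : τ ≠ 0 ∨ ∃ g, (ρ.character g).im ≠ 0) {c : ℝ} (hc : 0 ≤ c)
    (B : HeightOneSpectrum (𝓞 K) → ℂ[X]) (hB : IsTwist a b ρ τ B) {η : ℝ} (hη : 0 < η) :
    ∀ᶠ ε : ℝ in 𝓝[>] 0, size τ B ε ^ 2 ≤ edgeConst K c / 2 + η := by
  obtain ⟨U, hUn, hU, hρ'⟩ := exists_common (fun _ : Unit => ρ) fun _ => hA
  have hρ := hρ' ()
  have hfin : Finite (GK K ⧸ U) := Subgroup.quotient_finite_of_isOpen U hU
  choose σ hσ using exists_isFrob (F := K)
  have hhas := has_half hρ hU σ hσ hirr ho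
  have hβ := edgeConst_nonneg K hc
  have h1 := comb_sq (abs_TT_le a b) (sec_edge K hab hmod hc hη) (by positivity)
    (tw_size hab hmod U ρ hρ τ B hB σ hσ).2 (by norm_num) (SqLE.of_has hhas)
    (abs_RR_le U ρ hρ τ σ) (half_pos hη)
  exact h1.mono fun ε hε => by linarith

theorem off_order (hab : 4 * a ^ 3 + 27 * b ^ 2 ≠ 0) (hmod : IsModular a b) {n : ℕ}
    (ρ : Representation ℂ (GK K) (Fin n → ℂ)) (τ : ℝ) (hA : IsArtin ρ) (hirr : ρ.IsIrreducible)
    (ho : τ ≠ 0 ∨ ∃ g, (ρ.character g).im ≠ 0) {c : ℝ} (hc : 0 ≤ c) (m : ℤ)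
    (hm : TwistOrder a b ρ τ m) : 2 * (m : ℝ) ^ 2 ≤ edgeConst K c := by
  obtain ⟨B, hB, hm⟩ := hm
  have h1 := (tw_lim hab hmod hA hB hm).pow 2
  refine le_of_forall_pos_le_add fun η hη => ?_
  have h2 := le_of_tendsto h1 (off_size hab hmod ρ τ hA hirr ho hc B hB (half_pos hη))
  nlinarith

/-- dimension at least three over the rational field -/
theorem dim_size (h1 : Module.finrank ℚ K = 1) (hab : 4 * a ^ 3 + 27 * b ^ 2 ≠ 0)
    (hmod : IsModular a b) {n : ℕ}
    (ρ : Representation ℂ (GK K) (Fin n → ℂ)) (τ : ℝ) (hA : IsArtin ρ) (hirr : ρ.IsIrreducible)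
    (hn : 3 ≤ n) : ∃ C : ℝ, 0 ≤ C ∧ C < 1 ∧
      ∀ B : HeightOneSpectrum (𝓞 K) → ℂ[X], IsTwist a b ρ τ B → LimsupLE (size τ B) C := by
  classical
  have hsec : Sec (TT (syE (PP K a) (QQ K b))) 1 := by
    have h := sec_curve (K := K) hab hmod
    rw [h1, Nat.cast_one] at h
    exact h
  by_cases hτ : τ = 0
  · subst hτ
    obtain ⟨U, hUn, hU, hρ'⟩ := exists_common (fun _ : Unit => ρ) fun _ => hA
    have hρ := hρ' ()
    have hfin : Finite (GK K ⧸ U) := Subgroup.quotient_finite_of_isOpen U hU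
    choose σ hσ using exists_isFrob (F := K)
    have hcl := cls_re hρ
    have hS : ∀ B : HeightOneSpectrum (𝓞 K) → ℂ[X], IsTwist a b ρ 0 B →
        SzH (TT (syE (PP K a) (QQ K b))) (fun v => (ρ.character (σ v)).re * cz 0 v)
          (size 0 B) := fun B hB =>
      (tw_size hab hmod U ρ hρ 0 B hB σ hσ).2.congr (RR_zero hρ σ) fun _ => rfl
    set A : ℝ := avR U fun q => (ρ.character q.out).re ^ 2 with hAdef
    have hA0 : 0 ≤ A := avR_nonneg U fun q => sq_nonneg _
    have hle : A ≤ 1 := mean_re_le hρ hirr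
    have hg : 2 * (1 : ℝ) < |(ρ.character 1).re| := by
      have h3 : (3 : ℝ) ≤ n := by exact_mod_cast hn
      have : ρ.character 1 = (n : ℂ) := by
        rw [Representation.char_one]
        simp
      rw [this, Complex.natCast_re, abs_of_nonneg (Nat.cast_nonneg n)]
      linarith
    have hlt := Pool.Agent.X288.L2.mH_hub_lt 0 one_pos hcl (g := 1) hg
    have hhw : Pool.Agent.X288.L2.hw 0 0 = 1 := by
      rw [Pool.Agent.X288.L2.hw_self, if_pos rfl]
    rw [hhw, one_mul] at hlt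
    have hA' : (avR U fun q => (ρ.character q.out).re ^ 2) = A := rfl
    rw [hA'] at hlt
    have hpos : 0 ≤ Pool.Agent.X288.L2.mH U 0 (Pool.Agent.X288.L2.hub 1)
        (fun g => (ρ.character g).re) := by
      unfold Pool.Agent.X288.L2.mH
      refine avR_nonneg U fun q => ?_
      rw [if_pos rfl]
      have := Pool.Agent.X288.L2.hub_bound one_pos (t := 0) (by simp)
        ((ρ.character q.out).re)
      simpa using this
    refine ⟨1 / 2 * 1 + Pool.Agent.X288.L2.mH U 0 (Pool.Agent.X288.L2.hub 1)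
        (fun g => (ρ.character g).re), by positivity, by linarith, fun B hB η hη => ?_⟩
    exact Pool.Agent.X288.L2.ineqT hcl hσ (hS B hB) hU hsec (abs_TT_le a b) one_pos hη
  · refine ⟨Real.sqrt (1 / 2), Real.sqrt_nonneg _, ?_, fun B hB => ?_⟩
    · rw [Real.sqrt_lt' one_pos]
      norm_num
    · refine limsup_of_sq (fun η hη => ?_) (by norm_num)
      have h2 := off_size hab hmod ρ τ hA hirr (Or.inl hτ)
        (c := (Module.finrank ℚ K : ℝ)) (Nat.cast_nonneg _) B hB hη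
      rw [edgeConst_finrank, h1, Nat.cast_one] at h2
      exact h2

theorem dim_order (h1 : Module.finrank ℚ K = 1) (hab : 4 * a ^ 3 + 27 * b ^ 2 ≠ 0)
    (hmod : IsModular a b) {n : ℕ}
    (ρ : Representation ℂ (GK K) (Fin n → ℂ)) (τ : ℝ) (hA : IsArtin ρ) (hirr : ρ.IsIrreducible)
    (hn : 3 ≤ n) (m : ℤ) (hm : TwistOrder a b ρ τ m) : m = 0 := by
  obtain ⟨B, hB, hm⟩ := hm
  obtain ⟨C, hC0, hC1, hC⟩ := dim_size h1 hab hmod ρ τ hA hirr hn
  have h1 := Pool.Agent.TH322.BC.Edge.lim_abs_le (tw_lim hab hmod hA hB hm) (hC B hB)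
  rw [abs_neg] at h1
  by_contra h
  have h2 : (1 : ℤ) ≤ |m| := Int.one_le_abs h
  have h3 : (1 : ℝ) ≤ |(m : ℝ)| := by exact_mod_cast h2
  linarith

/-- two pairs -/
theorem two_pairs (hab : 4 * a ^ 3 + 27 * b ^ 2 ≠ 0) (hmod : IsModular a b) {n n' : ℕ}
    {ρ : Representation ℂ (GK K) (Fin n → ℂ)} {ρ' : Representation ℂ (GK K) (Fin n' → ℂ)}
    {τ τ' : ℝ} {m m' : ℤ} (hA : IsArtin ρ) (hA' : IsArtin ρ') (hi : ρ.IsIrreducible)
    (hi' : ρ'.IsIrreducible) (hm : TwistOrder a b ρ τ m) (hm' : TwistOrder a b ρ' τ' m')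
    (hne : τ = τ' → IsEmpty (ρ.Equiv ρ')) {c : ℝ} (hc : 0 ≤ c) :
    ((m ^ 2 + m' ^ 2 : ℤ) : ℝ) ≤ edgeConst K c := by
  have hne' : τ' = τ → IsEmpty (ρ'.Equiv ρ) := fun h => by
    refine ⟨fun e => ?_⟩
    exact (hne h.symm).false e.symm
  have h := (bessel_thm (K := K) hab hmod Bool (fun t => cond t n n')
    (fun t => match t with
      | true => ρ
      | false => ρ') (fun t => cond t τ τ')
    (fun t => match t with
      | true => hA
      | false => hA')
    (fun t => match t with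
      | true => hi
      | false => hi')
    (fun t t' ht => match t, t', ht with
      | true, true, ht => absurd rfl ht
      | false, false, ht => absurd rfl ht
      | true, false, _ => hne
      | false, true, _ => hne') c hc).2 (fun t => cond t m m')
    (fun t => match t with
      | true => hm
      | false => hm')
  rw [Fintype.sum_bool] at h
  exact h

theorem one_pair (hab : 4 * a ^ 3 + 27 * b ^ 2 ≠ 0) (hmod : IsModular a b) {n : ℕ}
    {ρ : Representation ℂ (GK K) (Fin n → ℂ)}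
    {τ : ℝ} {m : ℤ} (hA : IsArtin ρ) (hi : ρ.IsIrreducible)
    (hm : TwistOrder a b ρ τ m) {c : ℝ} (hc : 0 ≤ c) : ((m ^ 2 : ℤ) : ℝ) ≤ edgeConst K c := by
  have h := (bessel_thm (K := K) hab hmod Unit (fun _ => n) (fun _ => ρ) (fun _ => τ)
    (fun _ => hA) (fun _ => hi) (fun t t' ht => absurd rfl ht) c hc).2 (fun _ => m) (fun _ => hm)
  rw [Finset.univ_unique, Finset.sum_singleton] at h
  exact h

theorem lt_two {m : ℤ} {β : ℝ} (h : (m : ℝ) ≤ β) (hβ : β < 2) : m ≤ 1 := by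
  have h1 : (m : ℝ) < ((2 : ℤ) : ℝ) := by push_cast; linarith
  have h2 : m < 2 := by exact_mod_cast h1
  omega

theorem abs_one_of {m : ℤ} (h : m ^ 2 ≤ 1) (h0 : m ≠ 0) : |m| = 1 := by
  have h1 : 1 ≤ |m| := Int.one_le_abs h0
  have h2 : |m| ^ 2 ≤ 1 := by rwa [sq_abs]
  nlinarith

theorem off_zero (hab : 4 * a ^ 3 + 27 * b ^ 2 ≠ 0) (hmod : IsModular a b) {n : ℕ}
    {ρ : Representation ℂ (GK K) (Fin n → ℂ)} {τ : ℝ} {m : ℤ} (hA : IsArtin ρ)
    (hi : ρ.IsIrreducible) (hm : TwistOrder a b ρ τ m) {c : ℝ} (hc : 0 ≤ c)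
    (hβ : edgeConst K c < 2) (h0 : m ≠ 0) : τ = 0 ∧ ∀ g, (ρ.character g).im = 0 := by
  by_contra hcon
  have ho : τ ≠ 0 ∨ ∃ g, (ρ.character g).im ≠ 0 := by
    by_contra h
    push Not at h
    exact hcon ⟨h.1, h.2⟩
  have h1 := off_order hab hmod ρ τ hA hi ho hc m hm
  have h2 : ((2 * m ^ 2 : ℤ) : ℝ) ≤ edgeConst K c := by push_cast; exact h1
  have h3 := lt_two h2 hβ
  have h4 : 0 < m ^ 2 := by positivity
  omega

theorem noZerosPoles (hab : 4 * a ^ 3 + 27 * b ^ 2 ≠ 0) (hmod : IsModular a b) :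
    NoZerosPoles K a b := by
  refine ⟨fun n ρ τ hA hi ho c hc => ⟨fun B hB η hη => off_size hab hmod ρ τ hA hi ho hc B hB hη,
    fun m hm => off_order hab hmod ρ τ hA hi ho hc m hm⟩, fun h1 n ρ τ hA hi hn =>
    ⟨dim_size h1 hab hmod ρ τ hA hi hn, fun m hm => dim_order h1 hab hmod ρ τ hA hi hn m hm⟩, ?_⟩
  rintro ⟨c, hc, hβ⟩ n n' ρ ρ' τ τ' m m' hA hA' hi hi' hm hm' h0 h0'
  have z1 := off_zero hab hmod hA hi hm hc hβ h0
  have z2 := off_zero hab hmod hA' hi' hm' hc hβ h0'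
  refine ⟨z1.1, z2.1, ?_, abs_one_of (lt_two (one_pair hab hmod hA hi hm hc) hβ) h0, z1.2,
    fun h1 => ?_⟩
  · by_contra hcon
    have hem : IsEmpty (ρ.Equiv ρ') := not_nonempty_iff.1 hcon
    have h := lt_two (two_pairs hab hmod hA hA' hi hi' hm hm' (fun _ => hem) hc) hβ
    have h1 : 0 < m ^ 2 := by positivity
    have h2 : 0 < m' ^ 2 := by positivity
    omega
  · by_contra h3
    exact h0 (dim_order h1 hab hmod ρ τ hA hi (by omega) m hm)

end

end Pool.Agent.T2h85.HW
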