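import Pool.Agent.T2h85.HW.Defs
import Pool.Agent.T2h85.HW.Bes
import Pool.Agent.W353.AT.Main
import Pool.Agent.Y722.EP.Link

/-! The sizes of the Artin twists of a rational elliptic curve. -/

set_option autoImplicit false

namespace Pool.Agent.T2h85.HW

open Complex Filter Topology ComplexConjugate NumberField IsDedekindDomain Asymptotics
  Pool.Agent.W401.Cheb Pool.Agent.W540.BE Pool.Agent.W353.L1 Pool.Agent.W353.NF Polynomial
open Pool.Agent.W353.TP (HX sysH LL LL_tendsto E_H EH_eq bdd_isLittleO lam0_sub)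
open Pool.Agent.H341R2 (lam lam_tendsto sysK)
open Pool.Agent.W353.EF (LFun)
open Pool.Agent.Y722.EP (trace rE rE_eq abs_rE rt rt_spec two_not_mem rE_kerPrime IsModular
  IsNewformOf EP_fin finite_dvd)
open Pool.Agent.X288.L2 (Sec PP QQ TT_newform abs_TT_le sec_curve)
open Pool.Agent.W353.AB (syE)
open Pool.Agent.Y722.RS (tt)

section
variable {K : Type} [Field K] [NumberField K]

/-- the eigenvalues -/
noncomputable def ee (a b : ℤ) (v : HeightOneSpectrum (𝓞 K)) : Fin 2 → ℂ :=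
  ![(rt a b v).1, (rt a b v).2]

theorem ee_norm {v : HeightOneSpectrum (𝓞 K)} (h2 : (2 : 𝓞 K) ∉ v.asIdeal) (a b : ℤ)
    (j : Fin 2) : ‖ee a b v j‖ = (nm K v : ℝ) ^ ((1 : ℝ) / 2) := by
  obtain ⟨r1, r2, -, -⟩ := rt_spec h2 a b
  rw [← Real.sqrt_eq_rpow]
  fin_cases j
  · exact r1
  · exact r2

theorem ee_sum {v : HeightOneSpectrum (𝓞 K)} (h2 : (2 : 𝓞 K) ∉ v.asIdeal) (a b : ℤ) :
    ∑ j, ee a b v j = ((trace v a b : ℝ) : ℂ) := by
  obtain ⟨-, -, r3, -⟩ := rt_spec h2 a b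
  rw [Fin.sum_univ_two]
  exact r3

theorem ee_im {v : HeightOneSpectrum (𝓞 K)} (h2 : (2 : 𝓞 K) ∉ v.asIdeal) (a b : ℤ) :
    (∑ j, ee a b v j).im = 0 := by
  rw [ee_sum h2, Complex.ofReal_im]

theorem ee_tr {v : HeightOneSpectrum (𝓞 K)} (h2 : (2 : 𝓞 K) ∉ v.asIdeal) (a b : ℤ) :
    tr ((1 : ℝ) / 2) (ee a b) v = rE a b v := by
  unfold tr
  rw [if_pos ⟨ee_norm h2 a b, ee_im h2 a b⟩, ee_sum h2, Complex.ofReal_re, rE_eq h2,
    Real.rpow_neg (Nat.cast_nonneg _), ← Real.sqrt_eq_rpow, div_eq_mul_inv]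

theorem ee_det {v : HeightOneSpectrum (𝓞 K)} (h2 : (2 : 𝓞 K) ∉ v.asIdeal) (a b : ℤ) {n : ℕ}
    (A : Module.End ℂ (Fin n → ℂ)) (z : ℂ) :
    LinearMap.det (1 - ((trace v a b : ℂ) * z) • A +
      ((Ideal.absNorm v.asIdeal : ℂ) * z ^ 2) • (A * A)) =
    ∏ j, LinearMap.det (1 - (ee a b v j * z) • A) := by
  obtain ⟨-, -, r3, r4⟩ := rt_spec h2 a b
  have r3' : (rt a b v).1 + (rt a b v).2 = (trace v a b : ℂ) := by
    rw [r3]; push_cast; rfl
  have r4' : (rt a b v).1 * (rt a b v).2 = (Ideal.absNorm v.asIdeal : ℂ) := by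
    rw [r4]; push_cast; rfl
  rw [Fin.prod_univ_two, ← LinearMap.det_comp]
  congr 1
  have e0 : ee a b v 0 = (rt a b v).1 := rfl
  have e1 : ee a b v 1 = (rt a b v).2 := rfl
  rw [e0, e1, ← r3', ← r4']
  change _ = (1 - ((rt a b v).1 * z) • A) * (1 - ((rt a b v).2 * z) • A)
  rw [sub_mul, mul_sub, mul_sub, one_mul, mul_one, one_mul, smul_mul_smul_comm]
  module

theorem point_eq (τ : ℝ) : ((((1 : ℝ) / 2 : ℝ) : ℂ) + 1 + (τ : ℂ) * Complex.I) =
    3 / 2 + τ * Complex.I := by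
  push_cast
  ring

/-- The size of a twist, over the primes. -/
theorem tw_size0 (a b : ℤ) (U : Subgroup (GK K)) [U.Normal] [Finite (GK K ⧸ U)]
    {n : ℕ} (ρ : Representation ℂ (GK K) (Fin n → ℂ)) (hρ : ∀ u ∈ U, ρ u = 1) (τ : ℝ)
    (B : HeightOneSpectrum (𝓞 K) → ℂ[X]) (hB : IsTwist a b ρ τ B)
    (σ : HeightOneSpectrum (𝓞 K) → GK K) (hσ : ∀ v, IsFrob v (σ v)) :
    (∀ᶠ ε : ℝ in 𝓝[>] 0, LFun B (3 / 2 + τ * Complex.I + ε) ≠ 0) ∧
    Tendsto (fun ε : ℝ => (EP (nm K) ε fun v => rE a b v * RR ρ τ σ v) / lam ε -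
      size τ B ε) (𝓝[>] 0) (𝓝 0) := by
  have h2 := two_not_mem (K := K)
  have h := size_corr ((1 : ℝ) / 2) (ee a b)
    (h2.mono fun v hv j => ee_norm hv a b j) (h2.mono fun v hv => ee_im hv a b) U ρ hρ τ B
    ((h2.and hB.1).mono fun v hv g hg z => by
      rw [hv.2 g hg z, ee_det hv.1]) (by rw [point_eq]; exact hB.2) (LFun B)
    (fun s _ => rfl) σ hσ
  simp only [point_eq] at h
  refine ⟨h.1, ?_⟩
  have hb1 : ∀ v, |tr ((1 : ℝ) / 2) (ee a b) v * RR ρ τ σ v| ≤ 2 * n := by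
    intro v
    rw [abs_mul]
    exact mul_le_mul (abs_tr_le _ _ _) (abs_RR_le U ρ hρ _ _ _) (abs_nonneg _) (by norm_num)
  have hb2 : ∀ v, |(-1) * (rE a b v * RR ρ τ σ v)| ≤ 2 * n := by
    intro v
    rw [abs_mul, abs_neg, abs_one, one_mul, abs_mul]
    exact mul_le_mul (abs_rE _ _ _) (abs_RR_le U ρ hρ _ _ _) (abs_nonneg _) (by norm_num)
  have hfin := EP_fin (φ := fun v => tr ((1 : ℝ) / 2) (ee a b) v * RR ρ τ σ v +
    (-1) * (rE a b v * RR ρ τ σ v)) (B := 2 * n + 2 * n)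
    (fun v => (abs_add_le _ _).trans (add_le_add (hb1 v) (hb2 v)))
    (h2.mono fun v hv => by rw [ee_tr hv]; ring)
  have h3 := h.2.sub hfin
  rw [sub_zero] at h3
  refine h3.congr' ?_
  filter_upwards [self_mem_nhdsWithin] with ε hε
  have hε' : (0 : ℝ) < ε := hε
  have e : (fun v => ((tr ((1 : ℝ) / 2) (ee a b) v : ℂ) *
      (ρ.character (σ v)⁻¹ * zz τ v)).re) = fun v => tr ((1 : ℝ) / 2) (ee a b) v * RR ρ τ σ v := by
    funext v
    rw [Complex.re_ofReal_mul]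
    rfl
  rw [e, EP_add normSys hε' hb1 hb2, EP_const_mul]
  unfold size
  ring

/-- from sums over primes to sums over homomorphisms -/
theorem toSzH {T : HX K → ℝ} {R Ψ : HeightOneSpectrum (𝓞 K) → ℝ} {X : ℝ → ℝ} {B N : ℝ}
    (hT : ∀ x, |T x| ≤ N) (hR : ∀ v, |R v| ≤ N) (hΨ : ∀ v, |Ψ v| ≤ B)
    (S : Finset Nat.Primes) (hS : ∀ x : HX K, x.1 ∉ S → T x = R (vx x))
    (h : Tendsto (fun ε : ℝ => (EP (nm K) ε fun v => R v * Ψ v) / lam ε - X ε) (𝓝[>] 0) (𝓝 0)) :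
    SzH T Ψ X := by
  classical
  have hN : 0 ≤ N := (abs_nonneg _).trans (hT ((sysH K).nonempty.some))
  have hB : 0 ≤ B := (abs_nonneg _).trans (hΨ (vx ((sysH K).nonempty.some)))
  set D : ℝ := (Module.finrank ℚ K : ℝ) with hD
  have hD0 : 0 ≤ D := Nat.cast_nonneg _
  have hb : ∀ v, |R v * Ψ v| ≤ N * B := by
    intro v
    rw [abs_mul]
    exact mul_le_mul (hR v) (hΨ v) (abs_nonneg _) hN
  have hbT : ∀ x, |T x * Ψ (vx x)| ≤ N * B := by
    intro x
    rw [abs_mul]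
    exact mul_le_mul (hT x) (hΨ _) (abs_nonneg _) hN
  have hbR : ∀ x : HX K, |R (vx x) * Ψ (vx x)| ≤ N * B := fun x => hb _
  -- the difference of the two sums over homomorphisms
  have hdiff : ∀ ε : ℝ, 0 < ε → |(sysH K).E ε (fun x => T x * Ψ (vx x)) -
      (sysH K).E ε (fun x => R (vx x) * Ψ (vx x))| ≤ S.card * (D * (2 * (N * B))) := by
    intro ε hε
    have e1 : (sysH K).E ε (fun x => T x * Ψ (vx x)) -
        (sysH K).E ε (fun x => R (vx x) * Ψ (vx x)) =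
        (sysH K).E ε (fun x => T x * Ψ (vx x) + (-1) * (R (vx x) * Ψ (vx x))) := by
      rw [(sysH K).E_add hε (B := N * B) (B' := N * B) hbT (fun x => by
        rw [abs_mul, abs_neg, abs_one, one_mul]; exact hbR x), (sysH K).E_const_mul]
      ring
    have hb2 : ∀ x : HX K, |T x * Ψ (vx x) + (-1) * (R (vx x) * Ψ (vx x))| ≤ 2 * (N * B) := by
      intro x
      refine (abs_add_le _ _).trans ?_
      rw [abs_mul (-1), abs_neg, abs_one, one_mul]
      have := hbT x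
      have := hbR x
      linarith
    rw [e1]
    have e2 := EH_eq (K := K) (φ := fun x : HX K => T x * Ψ (vx x) + (-1) * (R (vx x) * Ψ (vx x)))
      hε hb2
    refine (congrArg abs e2).le.trans ?_
    unfold Pool.Agent.H341R2.E
    have h0 : ∀ p : Nat.Primes, p ∉ S → ∑ u : 𝓞 K →+* ZMod (p : ℕ),
        (T ⟨p, u⟩ * Ψ (vx ⟨p, u⟩) + (-1) * (R (vx ⟨p, u⟩) * Ψ (vx ⟨p, u⟩))) = 0 := by
      intro p hp
      refine Finset.sum_eq_zero fun u _ => ?_
      rw [hS ⟨p, u⟩ hp]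
      ring
    rw [tsum_eq_sum (s := S) fun p hp => mul_eq_zero_of_left (h0 p hp) _]
    refine (Finset.abs_sum_le_sum_abs _ _).trans ?_
    have h1 : ∀ p ∈ S, |(∑ u : 𝓞 K →+* ZMod (p : ℕ),
        (T ⟨p, u⟩ * Ψ (vx ⟨p, u⟩) + (-1) * (R (vx ⟨p, u⟩) * Ψ (vx ⟨p, u⟩)))) *
        ((p : ℕ) : ℝ) ^ (-(1 + ε))| ≤ D * (2 * (N * B)) := by
      intro p _
      have hw0 : 0 ≤ ((p : ℕ) : ℝ) ^ (-(1 + ε)) := by positivity
      have hw1 : ((p : ℕ) : ℝ) ^ (-(1 + ε)) ≤ 1 :=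
        Real.rpow_le_one_of_one_le_of_nonpos (by exact_mod_cast p.2.one_le) (by linarith)
      rw [abs_mul, abs_of_nonneg hw0]
      have h2 : |∑ u : 𝓞 K →+* ZMod (p : ℕ),
          (T ⟨p, u⟩ * Ψ (vx ⟨p, u⟩) + (-1) * (R (vx ⟨p, u⟩) * Ψ (vx ⟨p, u⟩)))| ≤
          D * (2 * (N * B)) := by
        refine (Finset.abs_sum_le_sum_abs _ _).trans ?_
        refine (Finset.sum_le_card_nsmul _ _ (2 * (N * B)) fun u _ => hb2 _).trans ?_
        rw [nsmul_eq_mul, Finset.card_univ]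
        refine mul_le_mul_of_nonneg_right ?_ (by positivity)
        rw [hD]
        exact_mod_cast Pool.Agent.W353.TP.card_hom_le (K := K) p
      calc _ ≤ D * (2 * (N * B)) * 1 := mul_le_mul h2 hw1 hw0 (by positivity)
        _ = _ := mul_one _
    refine (Finset.sum_le_card_nsmul _ _ _ h1).trans ?_
    rw [nsmul_eq_mul]
  have hEH : ∀ ε : ℝ, 0 < ε → |(EP (nm K) ε fun v => R v * Ψ v) -
      (sysH K).E ε (fun x => R (vx x) * Ψ (vx x))| ≤
      N * B * Module.finrank ℚ K * Pool.Agent.H921R2.TatePole.C0 := fun ε hε => E_H hb hε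
  -- conclusion
  have hEPb : (fun ε : ℝ => EP (nm K) ε fun v => R v * Ψ v) =O[𝓝[>] 0] LL := by
    have h1 : (fun ε : ℝ => EP (nm K) ε fun v => R v * Ψ v) =O[𝓝[>] 0] lam := by
      refine IsBigO.of_bound (2 * (N * B)) ?_
      filter_upwards [(EP_one K).eventually_lt_const (by norm_num : (1 : ℝ) < 2),
        lam_tendsto.eventually_gt_atTop 0, self_mem_nhdsWithin] with ε h1 h2 h3
      have hε : (0 : ℝ) < ε := h3
      rw [div_lt_iff₀ h2] at h1
      rw [Real.norm_eq_abs, Real.norm_eq_abs, abs_of_pos h2]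
      have h4 : |EP (nm K) ε fun v => R v * Ψ v| ≤ (N * B) * EP (nm K) ε fun _ => 1 := by
        rw [abs_le]
        constructor
        · have h7 := EP_le (normSys (F := K)) hε (φ := fun v => (-1) * (R v * Ψ v)) (B := N * B)
            (fun v => by rw [abs_mul, abs_neg, abs_one, one_mul]; exact hb v) (b := N * B)
            (fun v => by have := (abs_le.1 (hb v)).1; linarith)
          rw [EP_const_mul] at h7
          linarith
        · exact EP_le normSys hε hb fun v => (le_abs_self _).trans (hb v)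
      refine h4.trans ?_
      calc (N * B) * EP (nm K) ε (fun _ => 1) ≤ (N * B) * (2 * lam ε) :=
            mul_le_mul_of_nonneg_left h1.le (by positivity)
        _ = _ := by ring
    exact h1.trans Pool.Agent.W353.TP.lam0_isBigO
  unfold SzH
  have k1 : (fun ε : ℝ => ((EP (nm K) ε fun v => R v * Ψ v) / lam ε - X ε) * lam ε)
      =o[𝓝[>] 0] LL := by
    have h1 : (fun ε : ℝ => ((EP (nm K) ε fun v => R v * Ψ v) / lam ε - X ε) * lam ε)
        =o[𝓝[>] 0] fun ε => (1 : ℝ) * lam ε :=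
      ((isLittleO_one_iff ℝ).2 h).mul_isBigO (isBigO_refl _ _)
    refine h1.trans_isBigO ?_
    refine (Pool.Agent.W353.TP.lam0_isBigO).congr_left fun ε => ?_
    rw [one_mul]
  have hXb : X =O[𝓝[>] 0] fun _ => (1 : ℝ) := by
    have h1 : (fun ε : ℝ => (EP (nm K) ε fun v => R v * Ψ v) / lam ε - X ε) =O[𝓝[>] 0]
        fun _ => (1 : ℝ) := ((isLittleO_one_iff ℝ).2 h).isBigO
    have h2 : (fun ε : ℝ => (EP (nm K) ε fun v => R v * Ψ v) / lam ε) =O[𝓝[>] 0]
        fun _ => (1 : ℝ) := by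
      refine IsBigO.of_bound (2 * (N * B)) ?_
      filter_upwards [(EP_one K).eventually_lt_const (by norm_num : (1 : ℝ) < 2),
        lam_tendsto.eventually_gt_atTop 0, self_mem_nhdsWithin] with ε h1 h2 h3
      have hε : (0 : ℝ) < ε := h3
      rw [div_lt_iff₀ h2] at h1
      rw [Real.norm_eq_abs, norm_one, mul_one, abs_div, abs_of_pos h2, div_le_iff₀ h2]
      have h4 : |EP (nm K) ε fun v => R v * Ψ v| ≤ (N * B) * EP (nm K) ε fun _ => 1 := by
        rw [abs_le]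
        constructor
        · have h7 := EP_le (normSys (F := K)) hε (φ := fun v => (-1) * (R v * Ψ v)) (B := N * B)
            (fun v => by rw [abs_mul, abs_neg, abs_one, one_mul]; exact hb v) (b := N * B)
            (fun v => by have := (abs_le.1 (hb v)).1; linarith)
          rw [EP_const_mul] at h7
          linarith
        · exact EP_le normSys hε hb fun v => (le_abs_self _).trans (hb v)
      refine h4.trans ?_
      calc (N * B) * EP (nm K) ε (fun _ => 1) ≤ (N * B) * (2 * lam ε) :=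
            mul_le_mul_of_nonneg_left h1.le (by positivity)
        _ = _ := by ring
    refine (h2.sub h1).congr_left fun ε => ?_
    ring
  have k2 : (fun ε : ℝ => X ε * (lam ε - LL ε)) =o[𝓝[>] 0] LL := by
    have h1 : (fun ε : ℝ => X ε * (lam ε - LL ε)) =o[𝓝[>] 0] fun ε => (1 : ℝ) * LL ε :=
      hXb.mul_isLittleO lam0_sub
    refine h1.congr_right fun ε => one_mul _
  have k3 : (fun ε : ℝ => (EP (nm K) ε fun v => R v * Ψ v) -
      (sysH K).E ε (fun x => R (vx x) * Ψ (vx x))) =o[𝓝[>] 0] LL :=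
    bdd_isLittleO ⟨_, eventually_nhdsWithin_of_forall fun ε hε => hEH ε hε⟩
  have k4 : (fun ε : ℝ => (sysH K).E ε (fun x => T x * Ψ (vx x)) -
      (sysH K).E ε (fun x => R (vx x) * Ψ (vx x))) =o[𝓝[>] 0] LL :=
    bdd_isLittleO ⟨_, eventually_nhdsWithin_of_forall fun ε hε => hdiff ε hε⟩
  have k5 := ((k3.sub k4).sub k1).sub k2
  refine k5.congr' ?_ (EventuallyEq.refl _ _)
  filter_upwards [lam_tendsto.eventually_gt_atTop 0] with ε hε
  field_simp
  ring

end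

end Pool.Agent.T2h85.HW
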